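import Mathlib

/-!
# The combinatorial lemma on arrows between the four positions of an edge
-/

set_option autoImplicit false

namespace Pool.Agent.H21.Star

/-- Four different elements. -/
def Dist (v x w z : Fin 4) : Prop := v ≠ x ∧ v ≠ w ∧ v ≠ z ∧ x ≠ w ∧ x ≠ z ∧ w ≠ z

theorem Dist.a {v x w z : Fin 4} (h : Dist v x w z) : Dist x v w z :=
  ⟨h.1.symm, h.2.2.2.1, h.2.2.2.2.1, h.2.1, h.2.2.1, h.2.2.2.2.2⟩

theorem Dist.b {v x w z : Fin 4} (h : Dist v x w z) : Dist v w x z :=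
  ⟨h.2.1, h.1, h.2.2.1, h.2.2.2.1.symm, h.2.2.2.2.2, h.2.2.2.2.1⟩

theorem Dist.c {v x w z : Fin 4} (h : Dist v x w z) : Dist v x z w :=
  ⟨h.1, h.2.2.1, h.2.1, h.2.2.2.2.1, h.2.2.2.1, h.2.2.2.2.2.symm⟩

theorem Dist.cover {v x w z : Fin 4} (h : Dist v x w z) (i : Fin 4) : i = v ∨ i = x ∨ i = w ∨ i = z := by
  revert v x w z i
  unfold Dist
  decide

theorem exists_dist (v : Fin 4) : ∃ x w z, Dist v x w z := by
  unfold Dist
  revert v
  decide

theorem exists_dist2 (v x : Fin 4) (h : v ≠ x) : ∃ w z, Dist v x w z := by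
  unfold Dist
  revert v x
  decide

/-- The arrows between the positions of an edge. -/
structure Arrows (A1 A2 A3 : Fin 4 → Fin 4 → Prop) (B2 B3 : Fin 4 → Fin 4 → Fin 4 → Prop) : Prop where
  h12 : ∀ p q, A1 p q → A2 p q
  h23 : ∀ p q, A2 p q → A3 p q
  hB : ∀ p q r, B2 p q r → B3 p q r
  sB : ∀ p q r, B3 p q r → B3 q p r
  blk : ∀ v u w z, Dist v u w z → A1 v u ∨ A2 v w ∨ A3 v z ∨ B2 v u w ∨ B3 v u z

variable {A1 A2 A3 : Fin 4 → Fin 4 → Prop} {B2 B3 : Fin 4 → Fin 4 → Fin 4 → Prop}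

/-- There is none of the cheap derivations. -/
structure NoCheap (A1 A2 A3 : Fin 4 → Fin 4 → Prop) (B2 B3 : Fin 4 → Fin 4 → Fin 4 → Prop) : Prop where
  h2 : ∀ u v w z, Dist u v w z → B3 u v w → (B3 u v z ∨ B3 u w z ∨ B3 v w z) → False
  h3 : ∀ v u w z, Dist v u w z → A3 v u → (A3 v w ∨ A3 u w ∨ B3 v u w) →
    (A3 v z ∨ A3 u z ∨ A3 w z ∨ B3 v u z ∨ B3 v w z ∨ B3 u w z) → False
  h4 : ∀ p q r s, Dist p q r s → A2 p r → A1 r s → False
  h4a : ∀ v x w z, Dist v x w z → A1 v x → A1 w z → False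
  h5 : ∀ p q r s, Dist p q r s → A3 p r → A1 r s → B2 p r s → False

theorem step1 (H : Arrows A1 A2 A3 B2 B3) (N : NoCheap A1 A2 A3 B2 B3) (v : Fin 4) :
    ∃ u, v ≠ u ∧ A3 v u := by
  by_contra hno
  push Not at hno
  have key : ∀ u w z, Dist v u w z → B2 v u w ∨ B3 v u z := by
    intro u w z hd
    rcases H.blk v u w z hd with h | h | h | h | h
    · exact absurd (H.h23 _ _ (H.h12 _ _ h)) (hno _ hd.1)
    · exact absurd (H.h23 _ _ h) (hno _ hd.2.1)
    · exact absurd h (hno _ hd.2.2.1)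
    · exact Or.inl h
    · exact Or.inr h
  have key2 : ∀ u w z, Dist v u w z → B3 v u w → False := by
    intro u w z hd hB
    -- the target of `w` is `u`, and there is no target for `z`
    have n1 : ¬ B3 v w z := fun h => N.h2 v u w z hd hB (Or.inr (Or.inl h))
    have n2 : ¬ B3 v u z := fun h => N.h2 v u w z hd hB (Or.inl h)
    have hwu : B3 v w u := by
      rcases key w u z hd.b with h | h
      · exact H.hB _ _ _ h
      · exact absurd h n1
    rcases key z u w hd.c.b with h | h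
    · exact N.h2 v z u w hd.c.b (H.hB _ _ _ h) (Or.inr (Or.inl hB))
    · exact N.h2 v z w u hd.c.b.c h (Or.inr (Or.inl hwu))
  obtain ⟨u, w, z, hd⟩ := exists_dist v
  rcases key u w z hd with h | h
  · exact key2 u w z hd (H.hB _ _ _ h)
  · exact key2 u z w hd.c h

/-- In the presence of a 2-cycle `v, x` there are no arrows out of it. -/
theorem step2 (H : Arrows A1 A2 A3 B2 B3) (N : NoCheap A1 A2 A3 B2 B3) {v x w z : Fin 4}
    (hd : Dist v x w z) (h1 : A3 v x) (h2 : A3 x v) : ¬ A3 v w ∧ ¬ B3 v x w := by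
  obtain ⟨fz, hz, hfz⟩ := step1 H N z
  obtain ⟨fw, hw, hfw⟩ := step1 H N w
  constructor
  · intro h
    rcases hd.cover fz with rfl | rfl | rfl | rfl
    · -- z → v → x, v → w
      exact N.h3 z fz x w hd.c.b.a hfz (Or.inr (Or.inl h1)) (Or.inr (Or.inl h))
    · exact N.h3 z fz v w hd.a.c.b.a hfz (Or.inr (Or.inl h2)) (Or.inr (Or.inr (Or.inl h)))
    · rcases hd.cover fw with rfl | rfl | rfl | rfl
      · exact N.h3 z fz fw x (by have := hd.c.b.a.c.b; exact this) hfz (Or.inr (Or.inl hfw)) (Or.inr (Or.inr (Or.inl h1)))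
      · exact N.h3 z fz fw v (by have := hd.a.c.b.a.c.b; exact this) hfz (Or.inr (Or.inl hfw)) (Or.inr (Or.inr (Or.inl h2)))
      · exact hw rfl
      · exact N.h3 v x fz fw hd h1 (Or.inl h) (Or.inr (Or.inr (Or.inl hfw)))
    · exact hz rfl
  · intro h
    rcases hd.cover fz with rfl | rfl | rfl | rfl
    · exact N.h3 z fz x w hd.c.b.a hfz (Or.inr (Or.inl h1))
        (Or.inr (Or.inr (Or.inr (Or.inr (Or.inr h)))))
    · exact N.h3 z fz v w hd.a.c.b.a hfz (Or.inr (Or.inl h2))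
        (Or.inr (Or.inr (Or.inr (Or.inr (Or.inr (H.sB _ _ _ h))))))
    · rcases hd.cover fw with rfl | rfl | rfl | rfl
      · exact N.h3 z fz fw x (by have := hd.c.b.a.c.b; exact this) hfz (Or.inr (Or.inl hfw)) (Or.inr (Or.inr (Or.inl h1)))
      · exact N.h3 z fz fw v (by have := hd.a.c.b.a.c.b; exact this) hfz (Or.inr (Or.inl hfw)) (Or.inr (Or.inr (Or.inl h2)))
      · exact hw rfl
      · exact N.h3 v x fz fw hd h1 (Or.inr (Or.inr h)) (Or.inr (Or.inr (Or.inl hfw)))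
    · exact hz rfl

theorem step3 (H : Arrows A1 A2 A3 B2 B3) (N : NoCheap A1 A2 A3 B2 B3) {v x w z : Fin 4}
    (hd : Dist v x w z) (h1 : A3 v x) (h2 : A3 x v) : A1 v x := by
  rcases H.blk v x w z hd with h | h | h | h | h
  · exact h
  · exact absurd (H.h23 _ _ h) (step2 H N hd h1 h2).1
  · exact absurd h (step2 H N hd.c h1 h2).1
  · exact absurd (H.hB _ _ _ h) (step2 H N hd h1 h2).2
  · exact absurd h (step2 H N hd.c h1 h2).2

theorem step4 (H : Arrows A1 A2 A3 B2 B3) (N : NoCheap A1 A2 A3 B2 B3) {v x w z : Fin 4}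
    (hd : Dist v x w z) (h1 : A3 v x) (h2 : A3 x v) : ¬ A3 w v := by
  intro h
  have a1 := step3 H N hd h1 h2
  have a2 := step3 H N hd.a h2 h1
  -- positions: w, v, x, z
  have dwvxz : Dist w v x z := hd.b.a
  have n1 : ¬ A3 w z := fun h' => N.h3 w v x z dwvxz h (Or.inr (Or.inl h1)) (Or.inl h')
  have n2 : ¬ B3 w v z := fun h' => N.h3 w v x z dwvxz h (Or.inr (Or.inl h1))
    (Or.inr (Or.inr (Or.inr (Or.inl h'))))
  have n3 : ¬ A2 w v := fun h' => N.h4 w z v x dwvxz.c.b h' a1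
  have n4 : ¬ A2 w x := fun h' => N.h4 w z x v dwvxz.b.c.b h' a2
  rcases H.blk w v x z dwvxz with h' | h' | h' | h' | h'
  · exact n3 (H.h12 _ _ h')
  · exact n4 h'
  · exact n1 h'
  · exact N.h5 w z v x dwvxz.c.b h a1 h'
  · exact n2 h'

theorem noCheap_false (H : Arrows A1 A2 A3 B2 B3) (N : NoCheap A1 A2 A3 B2 B3) : False := by
  -- a 2-cycle gives a contradiction
  have cyc : ∀ v x w z, Dist v x w z → A3 v x → A3 x v → False := by
    intro v x w z hd h1 h2
    obtain ⟨fw, hw, hfw⟩ := step1 H N w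
    obtain ⟨fz, hz, hfz⟩ := step1 H N z
    have hwz : A3 w z := by
      rcases hd.cover fw with rfl | rfl | rfl | rfl
      · exact absurd hfw (step4 H N hd h1 h2)
      · exact absurd hfw (step4 H N hd.a h2 h1)
      · exact absurd rfl hw
      · exact hfw
    have hzw : A3 z w := by
      rcases hd.cover fz with rfl | rfl | rfl | rfl
      · exact absurd hfz (step4 H N hd.c h1 h2)
      · exact absurd hfz (step4 H N hd.a.c h2 h1)
      · exact hfz
      · exact absurd rfl hz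
    have d2 : Dist w z v x := hd.b.a.c.b
    exact N.h4a v x w z hd (step3 H N hd h1 h2) (step3 H N d2 hwz hzw)
  obtain ⟨x, hx, h1⟩ := step1 H N 0
  obtain ⟨w, z, hd⟩ := exists_dist2 0 x hx
  obtain ⟨fx, hfx, h2⟩ := step1 H N x
  -- the image of `x`
  have main : ∀ w z, Dist 0 x w z → A3 x w → False := by
    intro w z hd h2
    obtain ⟨fw, hfw, h3⟩ := step1 H N w
    rcases hd.cover fw with rfl | rfl | rfl | rfl
    · -- 3-cycle `0 → x → w → 0`
      obtain ⟨fz, hfz, h4⟩ := step1 H N z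
      rcases hd.cover fz with rfl | rfl | rfl | rfl
      · exact N.h3 z 0 x w (hd.c.b.a) h4 (Or.inr (Or.inl h1)) (Or.inr (Or.inr (Or.inl h2)))
      · exact N.h3 z fz w 0 (by have := hd.c.b.a.b.c; exact this) h4 (Or.inr (Or.inl h2))
          (Or.inr (Or.inr (Or.inl h3)))
      · exact N.h3 z fz 0 x (by have := hd.c.b.a.b.c.b.c; exact this) h4 (Or.inr (Or.inl h3))
          (Or.inr (Or.inr (Or.inl h1)))
      · exact hfz rfl
    · exact cyc fw w 0 z (by have := hd.a.b; exact this) h2 h3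
    · exact hfw rfl
    · exact N.h3 0 x w fw hd h1 (Or.inr (Or.inl h2)) (Or.inr (Or.inr (Or.inl h3)))
  rcases hd.cover fx with rfl | rfl | rfl | rfl
  · exact cyc 0 x w z hd h1 h2
  · exact hfx rfl
  · exact main _ _ hd h2
  · exact main _ _ hd.c h2

/-- **The combinatorial lemma.** -/
theorem comb (H : Arrows A1 A2 A3 B2 B3) :
    (∃ u v w z, Dist u v w z ∧ B3 u v w ∧ (B3 u v z ∨ B3 u w z ∨ B3 v w z)) ∨
    (∃ v u w z, Dist v u w z ∧ A3 v u ∧ (A3 v w ∨ A3 u w ∨ B3 v u w) ∧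
      (A3 v z ∨ A3 u z ∨ A3 w z ∨ B3 v u z ∨ B3 v w z ∨ B3 u w z)) ∨
    (∃ p q r s, Dist p q r s ∧ A2 p r ∧ A1 r s) ∨
    (∃ v x w z, Dist v x w z ∧ A1 v x ∧ A1 w z) ∨
    (∃ p q r s, Dist p q r s ∧ A3 p r ∧ A1 r s ∧ B2 p r s) := by
  by_contra hc
  push Not at hc
  obtain ⟨c1, c2, c3, c4, c5⟩ := hc
  refine noCheap_false H ⟨?_, ?_, ?_, ?_, ?_⟩
  · intro u v w z hd h1 h2
    have := c1 u v w z hd h1
    tauto
  · intro v u w z hd h1 h2 h3
    have := c2 v u w z hd h1 h2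
    tauto
  · exact fun p q r s hd h1 h2 => c3 p q r s hd h1 h2
  · exact fun p q r s hd h1 h2 => c4 p q r s hd h1 h2
  · exact fun p q r s hd h1 h2 h3 => c5 p q r s hd h1 h2 h3

end Pool.Agent.H21.Star
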