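import Pool.Agent.H21.Star.Emb
import Pool.Agent.H21.Star.Comb

/-!
# Counting lemmas for the upper bound
-/

set_option autoImplicit false
set_option linter.unusedSectionVars false

namespace Pool.Agent.H21.Star

open Finset

variable {V : Type*} [Fintype V] [DecidableEq V]

theorem count (X : Finset (Fin 4 → V)) {p q r s : Fin 4} (hd : Dist p q r s)
    (f1 : V → Finset V) (f2 : V → V → Finset V) (f3 : V → V → V → Finset V) {k1 k2 k3 : ℕ}
    (h1 : ∀ v, (f1 v).card ≤ k1) (h2 : ∀ v u, (f2 v u).card ≤ k2) (h3 : ∀ v u w, (f3 v u w).card ≤ k3)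
    (hX : ∀ x ∈ X, x q ∈ f1 (x p) ∧ x r ∈ f2 (x p) (x q) ∧ x s ∈ f3 (x p) (x q) (x r)) :
    X.card ≤ Fintype.card V * (k1 * (k2 * k3)) := by
  have hinj : Set.InjOn (fun x : Fin 4 → V =>
      (⟨x p, ⟨x q, ⟨x r, x s⟩⟩⟩ : Σ _ : V, Σ _ : V, Σ _ : V, V)) X := by
    intro x _ y _ hxy
    simp only [Sigma.mk.injEq, heq_eq_eq] at hxy
    obtain ⟨e1, e2, e3, e4⟩ := hxy
    funext i
    rcases hd.cover i with rfl | rfl | rfl | rfl <;> assumption
  have hmaps : ∀ x ∈ X, (⟨x p, ⟨x q, ⟨x r, x s⟩⟩⟩ : Σ _ : V, Σ _ : V, Σ _ : V, V) ∈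
      (univ : Finset V).sigma fun v => (f1 v).sigma fun u => (f2 v u).sigma fun w => f3 v u w := by
    intro x hx
    simp only [mem_sigma, mem_univ, true_and]
    exact hX x hx
  refine (card_le_card_of_injOn _ hmaps hinj).trans ?_
  rw [card_sigma, ← smul_eq_mul, ← Finset.card_univ]
  refine sum_le_card_nsmul _ _ _ fun v _ => ?_
  rw [card_sigma]
  refine (sum_le_card_nsmul _ _ (k2 * k3) fun u _ => ?_).trans ?_
  · rw [card_sigma]
    refine (sum_le_card_nsmul _ _ k3 fun w _ => h3 v u w).trans ?_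
    rw [smul_eq_mul]
    exact Nat.mul_le_mul_right _ (h2 v u)
  · rw [smul_eq_mul]
    exact Nat.mul_le_mul_right _ (h1 v)

/-- The coloured tuples whose set of vertices is an edge. -/
def tuples {n : ℕ} (F : Finset (Finset (Fin n))) (χ : Fin n → Fin 4) : Finset (Fin 4 → Fin n) :=
  univ.filter fun x => (∀ i, χ (x i) = i) ∧ univ.image x ∈ F

theorem exists_colouring {n : ℕ} (F : Finset (Finset (Fin n))) (hF : ∀ e ∈ F, e.card = 4) :
    ∃ χ : Fin n → Fin 4, F.card ≤ 256 * (tuples F χ).card := by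
  classical
  rcases F.eq_empty_or_nonempty with rfl | ⟨e0, he0⟩
  · exact ⟨fun _ => 0, by simp⟩
  obtain ⟨v0, hv0⟩ : e0.Nonempty := by
    rw [← card_pos, hF e0 he0]; norm_num
  haveI : Nonempty (Fin n) := ⟨v0⟩
  have hord : ∀ e ∈ F, ∃ x : Fin 4 → Fin n, Function.Injective x ∧ univ.image x = e := by
    intro e he
    refine ⟨e.orderEmbOfFin (hF e he), (e.orderEmbOfFin (hF e he)).injective, ?_⟩
    exact e.image_orderEmbOfFin_univ (hF e he)
  choose! x hx hx' using hord
  by_contra hcon
  push Not at hcon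
  -- the good colourings of an edge
  have hgood : ∀ e ∈ F, (4 : ℕ) ^ n ≤ 256 * (univ.filter fun χ : Fin n → Fin 4 => ∀ i, χ (x e i) = i).card := by
    intro e he
    have hc : (univ : Finset (Fin n → Fin 4)).card ≤
        ((univ : Finset (Fin 4 → Fin 4)) ×ˢ (univ.filter fun χ : Fin n → Fin 4 => ∀ i, χ (x e i) = i)).card := by
      refine card_le_card_of_injOn (fun χ => (fun i => χ (x e i), fun v => if h : ∃ i, x e i = v then h.choose else χ v)) ?_ ?_
      · intro χ _
        simp only [coe_product, coe_univ, Set.mem_prod, Set.mem_univ, true_and, coe_filter,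
          mem_univ, Set.mem_setOf_eq]
        intro i
        have h : ∃ j, x e j = x e i := ⟨i, rfl⟩
        rw [dif_pos h]
        exact hx e he h.choose_spec
      · intro χ _ χ' _ h
        simp only [Prod.mk.injEq] at h
        funext v
        by_cases hv : ∃ i, x e i = v
        · obtain ⟨i, rfl⟩ := hv
          exact congrFun h.1 i
        · have := congrFun h.2 v
          simpa [hv] using this
    rw [card_product] at hc
    simpa using hc
  have hX : ∀ χ, (F.filter fun e => ∀ i, χ (x e i) = i).card ≤ (tuples F χ).card := by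
    intro χ
    refine card_le_card_of_injOn x ?_ ?_
    · intro e he
      simp only [coe_filter, Set.mem_setOf_eq] at he
      simp only [tuples, coe_filter, mem_univ, true_and, Set.mem_setOf_eq]
      exact ⟨he.2, by rw [hx' e he.1]; exact he.1⟩
    · intro e he e' he' h
      simp only [coe_filter, Set.mem_setOf_eq] at he he'
      rw [← hx' e he.1, ← hx' e' he'.1, h]
  have hsum : ∑ χ : Fin n → Fin 4, (F.filter fun e => ∀ i, χ (x e i) = i).card =
      ∑ e ∈ F, (univ.filter fun χ : Fin n → Fin 4 => ∀ i, χ (x e i) = i).card := by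
    simp only [card_filter]
    rw [sum_comm]
  have h1 : F.card * 4 ^ n ≤ 256 * ∑ χ : Fin n → Fin 4, (tuples F χ).card := by
    calc F.card * 4 ^ n = ∑ e ∈ F, 4 ^ n := by rw [sum_const, smul_eq_mul]
      _ ≤ ∑ e ∈ F, 256 * (univ.filter fun χ : Fin n → Fin 4 => ∀ i, χ (x e i) = i).card :=
          sum_le_sum hgood
      _ = 256 * ∑ χ : Fin n → Fin 4, (F.filter fun e => ∀ i, χ (x e i) = i).card := by
          rw [hsum, mul_sum]
      _ ≤ _ := Nat.mul_le_mul_left _ (sum_le_sum fun χ _ => hX χ)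
  have h2 : 256 * ∑ χ : Fin n → Fin 4, (tuples F χ).card < F.card * 4 ^ n := by
    rw [mul_sum]
    calc ∑ χ : Fin n → Fin 4, 256 * (tuples F χ).card < ∑ χ : Fin n → Fin 4, F.card := by
          refine sum_lt_sum_of_nonempty ?_ fun χ _ => hcon χ
          exact ⟨fun _ => 0, mem_univ _⟩
      _ = _ := by rw [sum_const, smul_eq_mul]; simp [mul_comm]
  omega

end Pool.Agent.H21.Star
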