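import Mathlib

/-!
# Generalised stars and their Turan numbers
-/

set_option autoImplicit false

namespace Pool.Agent.H21.Star

/-- `IsStar [d₁, …, d_{r-1}] E`: `E` is the set of edges of a copy of the generalised star
`St_r(d₁, …, d_{r-1})`: all edges contain a vertex `v`, and deleting `v` from the edges leaves `d₁`
vertex-disjoint copies of `St_{r-1}(d₂, …, d_{r-1})`. For the empty list `E` consists of one edge with
one vertex, so that `IsStar [d] E` says that `E` is a graph star with `d` leaves. -/
def IsStar {V : Type*} [DecidableEq V] : List ℕ → Finset (Finset V) → Prop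
  | [], E => ∃ v : V, E = {{v}}
  | d :: ds, E => ∃ (v : V) (P : Fin d → Finset (Finset V)),
      (∀ i, IsStar ds (P i) ∧ ∀ e ∈ P i, v ∉ e) ∧
      (∀ i j, i ≠ j → ∀ e ∈ P i, ∀ f ∈ P j, Disjoint e f) ∧
      E = Finset.univ.biUnion fun i => (P i).image (insert v)

open Classical in
/-- The Turan number `ex(n, St_r(d₁, …, d_{r-1}))`: the maximum number of edges of an `r`-graph on `n`
vertices that contains no copy of the generalised star. -/
noncomputable def ex (n : ℕ) (ds : List ℕ) : ℕ :=
  ((Finset.univ : Finset (Finset (Finset (Fin n)))).filter fun F =>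
    (∀ e ∈ F, e.card = ds.length + 1) ∧ ∀ E ⊆ F, ¬ IsStar ds E).sup Finset.card

end Pool.Agent.H21.Star
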