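import Pool.Agent.H21.Star.Pack

/-!
# Ordered stars in coloured families are generalised stars
-/

set_option autoImplicit false
set_option linter.unusedSectionVars false

namespace Pool.Agent.H21.Star

open Finset

variable {V : Type*} [Fintype V] [DecidableEq V]

theorem isStar1 {c : ℕ} (w : V) (z : Fin c → V) (hz : Function.Injective z) (hw : ∀ k, w ≠ z k) :
    IsStar [c] (univ.image fun k : Fin c => ({w, z k} : Finset V)) := by
  refine ⟨w, fun k => {{z k}}, fun k => ⟨⟨z k, rfl⟩, ?_⟩, ?_, ?_⟩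
  · intro e he
    rw [mem_singleton] at he
    subst he
    simpa using hw k
  · intro i j hij e he f hf
    rw [mem_singleton] at he hf
    subst he; subst hf
    rw [disjoint_singleton]
    exact fun h => hij (hz h)
  · ext e
    simp [eq_comm]

theorem isStar2 {b c : ℕ} (u : V) (w : Fin b → V) (z : Fin b → Fin c → V)
    (hw : Function.Injective w) (hz : ∀ j k j' k', z j k = z j' k' → j = j' ∧ k = k')
    (h1 : ∀ j, u ≠ w j) (h2 : ∀ j k, u ≠ z j k) (h3 : ∀ i j k, w i ≠ z j k) :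
    IsStar [b, c] (univ.image fun p : Fin b × Fin c => ({u, w p.1, z p.1 p.2} : Finset V)) := by
  refine ⟨u, fun j => univ.image fun k : Fin c => ({w j, z j k} : Finset V),
    fun j => ⟨isStar1 (w j) (z j) (fun k k' h => (hz _ _ _ _ h).2) (h3 j j), ?_⟩, ?_, ?_⟩
  · intro e he
    obtain ⟨k, -, rfl⟩ := mem_image.1 he
    simpa using ⟨h1 j, h2 j k⟩
  · intro i j hij e he f hf
    obtain ⟨k, -, rfl⟩ := mem_image.1 he
    obtain ⟨k', -, rfl⟩ := mem_image.1 hf
    rw [disjoint_left]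
    intro y hy hy'
    simp only [mem_insert, mem_singleton] at hy hy'
    rcases hy with rfl | rfl <;> rcases hy' with h | h
    · exact hij (hw h)
    · exact h3 _ _ _ h
    · exact h3 _ _ _ h.symm
    · exact hij (hz _ _ _ _ h).1
  · ext e
    simp only [mem_image, mem_univ, true_and, mem_biUnion, Prod.exists]
    constructor
    · rintro ⟨j, k, rfl⟩
      exact ⟨j, _, ⟨k, rfl⟩, rfl⟩
    · rintro ⟨j, _, ⟨k, rfl⟩, rfl⟩
      exact ⟨j, k, rfl⟩

theorem isStar3 {a b c : ℕ} (v : V) (u : Fin a → V) (w : Fin a → Fin b → V)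
    (z : Fin a → Fin b → Fin c → V) (hu : Function.Injective u)
    (hw : ∀ i j i' j', w i j = w i' j' → i = i' ∧ j = j')
    (hz : ∀ i j k i' j' k', z i j k = z i' j' k' → i = i' ∧ j = j' ∧ k = k')
    (h1 : ∀ i, v ≠ u i) (h2 : ∀ i j, v ≠ w i j) (h3 : ∀ i j k, v ≠ z i j k)
    (h4 : ∀ i i' j, u i ≠ w i' j) (h5 : ∀ i i' j k, u i ≠ z i' j k)
    (h6 : ∀ i j i' j' k, w i j ≠ z i' j' k) :
    IsStar [a, b, c] (univ.image fun p : Fin a × Fin b × Fin c =>
      ({v, u p.1, w p.1 p.2.1, z p.1 p.2.1 p.2.2} : Finset V)) := by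
  refine ⟨v, fun i => univ.image fun p : Fin b × Fin c => ({u i, w i p.1, z i p.1 p.2} : Finset V),
    fun i => ⟨isStar2 (u i) (w i) (z i) (fun k k' h => (hw _ _ _ _ h).2)
      (fun j k j' k' h => (hz _ _ _ _ _ _ h).2) (h4 i i) (h5 i i) (fun j j' k => h6 i j i j' k), ?_⟩,
    ?_, ?_⟩
  · intro e he
    obtain ⟨k, -, rfl⟩ := mem_image.1 he
    simpa using ⟨h1 i, h2 i k.1, h3 i k.1 k.2⟩
  · intro i j hij e he f hf
    obtain ⟨k, -, rfl⟩ := mem_image.1 he
    obtain ⟨k', -, rfl⟩ := mem_image.1 hf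
    rw [disjoint_left]
    intro y hy hy'
    simp only [mem_insert, mem_singleton] at hy hy'
    rcases hy with rfl | rfl | rfl <;> rcases hy' with h | h | h
    · exact hij (hu h)
    · exact h4 _ _ _ h
    · exact h5 _ _ _ _ h
    · exact h4 _ _ _ h.symm
    · exact hij (hw _ _ _ _ h).1
    · exact h6 _ _ _ _ _ h
    · exact h5 _ _ _ _ h.symm
    · exact h6 _ _ _ _ _ h.symm
    · exact hij (hz _ _ _ _ _ _ h).1
  · ext e
    simp only [mem_image, mem_univ, true_and, mem_biUnion, Prod.exists]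
    constructor
    · rintro ⟨i, j, k, rfl⟩
      exact ⟨i, _, ⟨j, k, rfl⟩, rfl⟩
    · rintro ⟨i, _, ⟨j, k, rfl⟩, rfl⟩
      exact ⟨i, j, k, rfl⟩

/-- The tuples of `X`, in the order given by `π`. -/
def R (X : Finset (Fin 4 → V)) (π : Equiv.Perm (Fin 4)) (v u w z : V) : Prop :=
  ∃ x ∈ X, x (π 0) = v ∧ x (π 1) = u ∧ x (π 2) = w ∧ x (π 3) = z

theorem image_perm (π : Equiv.Perm (Fin 4)) (x : Fin 4 → V) :
    univ.image x = {x (π 0), x (π 1), x (π 2), x (π 3)} := by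
  ext y
  simp only [mem_image, mem_univ, true_and, mem_insert, mem_singleton]
  rw [π.surjective.exists]
  constructor
  · rintro ⟨i, rfl⟩
    fin_cases i <;> simp
  · rintro (rfl | rfl | rfl | rfl)
    · exact ⟨0, rfl⟩
    · exact ⟨1, rfl⟩
    · exact ⟨2, rfl⟩
    · exact ⟨3, rfl⟩

theorem noStar {F : Finset (Finset V)} {a b c : ℕ} (ha : 1 ≤ a) (hb : 1 ≤ b) (hc : 1 ≤ c)
    (hF : ∀ E ⊆ F, ¬ IsStar [a, b, c] E) (X : Finset (Fin 4 → V)) (χ : V → Fin 4)
    (hX : ∀ x ∈ X, (∀ i, χ (x i) = i) ∧ univ.image x ∈ F) (π : Equiv.Perm (Fin 4)) (v : V) :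
    ¬ Star3 (R X π v) a b c := by
  rintro ⟨u, w, z, hu, hw, hz, h⟩
  have i0 : Fin a := ⟨0, ha⟩
  have j0 : Fin b := ⟨0, hb⟩
  have k0 : Fin c := ⟨0, hc⟩
  have cv : χ v = π 0 := by
    obtain ⟨x, hx, h0, h1, h2, h3⟩ := h i0 j0 k0
    rw [← h0]; exact (hX x hx).1 _
  have cu : ∀ i, χ (u i) = π 1 := by
    intro i
    obtain ⟨x, hx, h0, h1, h2, h3⟩ := h i j0 k0
    rw [← h1]; exact (hX x hx).1 _
  have cw : ∀ i j, χ (w i j) = π 2 := by
    intro i j
    obtain ⟨x, hx, h0, h1, h2, h3⟩ := h i j k0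
    rw [← h2]; exact (hX x hx).1 _
  have cz : ∀ i j k, χ (z i j k) = π 3 := by
    intro i j k
    obtain ⟨x, hx, h0, h1, h2, h3⟩ := h i j k
    rw [← h3]; exact (hX x hx).1 _
  have ne : ∀ s t : Fin 4, s ≠ t → π s ≠ π t := fun s t hst h => hst (π.injective h)
  refine hF _ ?_ (isStar3 v u w z hu hw hz ?_ ?_ ?_ ?_ ?_ ?_)
  · intro e he
    obtain ⟨⟨i, j, k⟩, -, rfl⟩ := mem_image.1 he
    obtain ⟨x, hx, h0, h1, h2, h3⟩ := h i j k
    have := (hX x hx).2
    rw [image_perm π, h0, h1, h2, h3] at this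
    exact this
  · exact fun i h => ne 0 1 (by decide) (by rw [← cv, ← cu i, h])
  · exact fun i j h => ne 0 2 (by decide) (by rw [← cv, ← cw i j, h])
  · exact fun i j k h => ne 0 3 (by decide) (by rw [← cv, ← cz i j k, h])
  · exact fun i i' j h => ne 1 2 (by decide) (by rw [← cu i, ← cw i' j, h])
  · exact fun i i' j k h => ne 1 3 (by decide) (by rw [← cu i, ← cz i' j k, h])
  · exact fun i j i' j' k h => ne 2 3 (by decide) (by rw [← cw i j, ← cz i' j' k, h])

end Pool.Agent.H21.Star
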