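import Pool.Agent.H21.Star.Lower3

/-!
# The order of magnitude for 4-graphs
-/

set_option autoImplicit false
set_option linter.unusedSectionVars false

namespace Pool.Agent.H21.Star

open Finset

/-- The order of magnitude. -/
def g (n a b c : ℕ) : ℕ :=
  (c - 1) * n ^ 3 + (b ^ 2 * c ^ 2 + a ^ 2 * b) * n ^ 2 + a ^ 3 * b ^ 3 * c ^ 3 * n

theorem ex_le_choose (n a b c : ℕ) : ex n [a, b, c] ≤ n.choose 4 := by
  refine ex_le fun F hF _ => ?_
  have : F ⊆ powersetCard 4 (univ : Finset (Fin n)) := fun e he =>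
    mem_powersetCard.2 ⟨subset_univ _, hF e he⟩
  refine (card_le_card this).trans ?_
  rw [card_powersetCard, Finset.card_univ, Fintype.card_fin]

theorem choose_le_pow4 (n : ℕ) : n.choose 4 ≤ n ^ 4 := by
  have h1 := Nat.choose_le_pow_div 4 n (α := ℚ)
  have h2 : ((n : ℚ) ^ 4 / (Nat.factorial 4 : ℕ)) ≤ (n : ℚ) ^ 4 := by
    apply div_le_self (by positivity)
    norm_num [Nat.factorial]
  exact_mod_cast h1.trans h2

theorem mixed_le (n a b c : ℕ) (hc : 1 ≤ c) :
    n ^ 2 * (a * b * c * min a b) ≤ n ^ 2 * (a ^ 2 * b) + 2 * ((c - 1) * n ^ 3) + n * (a * b * c) ^ 3 := by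
  set m := min a b with hm
  have hma : m ≤ a := min_le_left _ _
  have hmb : m ≤ b := min_le_right _ _
  rcases Nat.lt_or_ge c 2 with h | h
  · have : c = 1 := by omega
    subst this
    have : n ^ 2 * (a * b * 1 * m) ≤ n ^ 2 * (a ^ 2 * b) := by
      refine Nat.mul_le_mul_left _ ?_
      calc a * b * 1 * m ≤ a * b * 1 * a := Nat.mul_le_mul_left _ hma
        _ = a ^ 2 * b := by ring
    omega
  · have h1 : m * m ≤ a * b := Nat.mul_le_mul hma hmb
    have h2 : 2 * n * (a * b * m) ≤ n ^ 2 + (a * b * m) ^ 2 := two_mul_le_add_sq _ _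
    have h3 : (a * b * m) ^ 2 ≤ (a * b) ^ 3 := by
      calc (a * b * m) ^ 2 = (a * b) ^ 2 * (m * m) := by ring
        _ ≤ (a * b) ^ 2 * (a * b) := Nat.mul_le_mul_left _ h1
        _ = _ := by ring
    have h4 : n * (a * b * m) ≤ n ^ 2 + (a * b) ^ 3 := by
      have : n * (a * b * m) ≤ 2 * n * (a * b * m) := Nat.mul_le_mul_right _ (by omega)
      omega
    have h5 : c * (a * b) ^ 3 ≤ (a * b * c) ^ 3 := by
      calc c * (a * b) ^ 3 = (a * b) ^ 3 * c := by ring
        _ ≤ (a * b) ^ 3 * c ^ 3 := Nat.mul_le_mul_left _ (Nat.le_self_pow (by norm_num) c)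
        _ = _ := by ring
    calc n ^ 2 * (a * b * c * m) = c * n * (n * (a * b * m)) := by ring
      _ ≤ c * n * (n ^ 2 + (a * b) ^ 3) := Nat.mul_le_mul_left _ h4
      _ = c * n ^ 3 + n * (c * (a * b) ^ 3) := by ring
      _ ≤ 2 * (c - 1) * n ^ 3 + n * (a * b * c) ^ 3 :=
          add_le_add (Nat.mul_le_mul_right _ (by omega)) (Nat.mul_le_mul_left _ h5)
      _ ≤ _ := by rw [mul_assoc 2]; omega

theorem ex_le_g {n a b c : ℕ} (ha : 1 ≤ a) (hb : 1 ≤ b) (hc : 1 ≤ c) :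
    ex n [a, b, c] ≤ 100000000000 * g n a b c := by
  refine ex_le fun F hF hs => ?_
  obtain ⟨χ, hχ⟩ := exists_colouring F hF
  have h1 := upper_tuples ha hb hc (tuples F χ) fun π v =>
    noStar ha hb hc hs (tuples F χ) χ (fun x hx => (mem_filter.1 hx).2) π v
  rw [Fintype.card_fin] at h1
  have h2 := mixed_le n a b c hc
  have e1 : n * (n * (n * (c - 1))) = (c - 1) * n ^ 3 := by ring
  have e2 : n * (n * (96 * (b * c) * (288 * (b * c)))) = 27648 * (b ^ 2 * c ^ 2 * n ^ 2) := by ring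
  have e3 : n * (72 * (a * b * c) * (240 * (a * b * c) * (504 * (a * b * c)))) =
      8709120 * (a ^ 3 * b ^ 3 * c ^ 3 * n) := by ring
  have e4 : n * (n * (48 * (a * b) * (24 * a))) = 1152 * (a ^ 2 * b * n ^ 2) := by ring
  have e5 : n * (24 * a * (n * (24 * a))) ≤ 576 * (a ^ 2 * b * n ^ 2) := by
    calc n * (24 * a * (n * (24 * a))) = 576 * (a ^ 2 * 1 * n ^ 2) := by ring
      _ ≤ 576 * (a ^ 2 * b * n ^ 2) :=
        Nat.mul_le_mul_left _ (Nat.mul_le_mul_right _ (Nat.mul_le_mul_left _ hb))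
  have e6 : n * (n * (72 * (a * b * c) * (24 * min a b))) = 1728 * (n ^ 2 * (a * b * c * min a b)) := by
    ring
  have e7 : n ^ 2 * (a ^ 2 * b) = a ^ 2 * b * n ^ 2 := by ring
  have e8 : n * (a * b * c) ^ 3 = a ^ 3 * b ^ 3 * c ^ 3 * n := by ring
  have e9 : (b ^ 2 * c ^ 2 + a ^ 2 * b) * n ^ 2 = b ^ 2 * c ^ 2 * n ^ 2 + a ^ 2 * b * n ^ 2 := by ring
  rw [e1, e2, e3, e4, e6] at h1
  rw [e7, e8] at h2
  rw [g, e9]
  omega

theorem g_le_ex {n a b c : ℕ} (ha : 1 ≤ a) (hb : 1 ≤ b) (hc : 1 ≤ c) (h2 : 2 ≤ a * b * c)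
    (hn : 1 + a + a * b + a * b * c ≤ n) : g n a b c ≤ 50000 * ex n [a, b, c] := by
  have hab : a ≤ a * b := Nat.le_mul_of_pos_right _ hb
  have habc : a * b ≤ a * b * c := Nat.le_mul_of_pos_right _ hc
  have hbc : b * c ≤ a * b * c := by rw [mul_assoc]; exact Nat.le_mul_of_pos_left _ ha
  have hcb : c ≤ b * c := Nat.le_mul_of_pos_left _ hb
  have l1 := lower1 (n := n) ha hb hc (by omega) (by omega)
  have l4 := lower4 ha hb hc h2 hn
  have l23 : b ^ 2 * c ^ 2 * n ^ 2 + a ^ 2 * b * n ^ 2 ≤ 20000 * ex n [a, b, c] := by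
    rcases Nat.lt_or_ge a 2 with h | h
    · have : a = 1 := by omega
      subst this
      have h2' : 2 ≤ b * c := by simpa using h2
      have l2 := lower2' (n := n) (a := 1) ha hb hc h2' (by omega) (by omega)
      have : 1 ^ 2 * b * n ^ 2 ≤ n ^ 2 * (b * c) ^ 2 := by
        calc 1 ^ 2 * b * n ^ 2 = n ^ 2 * b := by ring
          _ ≤ n ^ 2 * (b * c) ^ 2 := Nat.mul_le_mul_left _
            ((Nat.le_mul_of_pos_right _ hc).trans (Nat.le_self_pow (by norm_num) _))
      have e : b ^ 2 * c ^ 2 * n ^ 2 = n ^ 2 * (b * c) ^ 2 := by ring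
      omega
    · have l3 := lower3' h hb hc hn
      have e3 : n ^ 2 * (a ^ 2 * b) = a ^ 2 * b * n ^ 2 := by ring
      rcases Nat.lt_or_ge (b * c) 2 with h' | h'
      · have hb1 : b = 1 := by
          have := Nat.le_mul_of_pos_right b hc
          omega
        have hc1 : c = 1 := by omega
        subst hb1; subst hc1
        have : 1 ^ 2 * 1 ^ 2 * n ^ 2 ≤ a ^ 2 * 1 * n ^ 2 := by
          refine Nat.mul_le_mul_right _ ?_
          have : 1 ≤ a ^ 2 := Nat.one_le_pow _ _ (by omega)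
          omega
        omega
      · have l2 := lower2' (n := n) (a := a) ha hb hc h' (by omega) (by omega)
        have e : b ^ 2 * c ^ 2 * n ^ 2 = n ^ 2 * (b * c) ^ 2 := by ring
        omega
  have e9 : (b ^ 2 * c ^ 2 + a ^ 2 * b) * n ^ 2 = b ^ 2 * c ^ 2 * n ^ 2 + a ^ 2 * b * n ^ 2 := by ring
  have e8 : n * (a * b * c) ^ 3 = a ^ 3 * b ^ 3 * c ^ 3 * n := by ring
  have e1 : n ^ 3 * (c - 1) = (c - 1) * n ^ 3 := by ring
  rw [g, e9]
  omega

theorem ex_eq_choose {n a b c : ℕ} (ha : 1 ≤ a) (hb : 1 ≤ b) (hc : 1 ≤ c)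
    (hn : n < 1 + a + a * b + a * b * c) : ex n [a, b, c] = n.choose 4 := by
  refine le_antisymm (ex_le_choose n a b c) ?_
  have : (powersetCard 4 (univ : Finset (Fin n))).card = n.choose 4 := by
    rw [card_powersetCard, Finset.card_univ, Fintype.card_fin]
  rw [← this]
  refine le_ex_of_type hb hc ha (by rw [Fintype.card_fin]) _ (fun e he => (mem_powersetCard.1 he).2) ?_
  intro T
  have := T.card_le hb hc univ (fun e _ _ => subset_univ _) ha
  rw [Finset.card_univ, Fintype.card_fin] at this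
  omega

theorem ex_one (n : ℕ) : ex n [1, 1, 1] = 0 := by
  refine Nat.le_zero.1 (ex_le fun F hF hs => ?_)
  rw [Nat.le_zero, card_eq_zero]
  by_contra hne
  obtain ⟨e, he⟩ := nonempty_iff_ne_empty.2 hne
  refine hs {e} (by simpa using he) ?_
  have hcard : e.card = 4 := hF e he
  obtain ⟨v, t, hv, rfl, ht⟩ := card_eq_succ.1 hcard
  obtain ⟨u, s, hu, rfl, hs'⟩ := card_eq_succ.1 ht
  obtain ⟨w, z, hwz, rfl⟩ := card_eq_two.1 hs'
  refine ⟨v, fun _ => {{u, w, z}}, fun i => ⟨⟨u, fun _ => {{w, z}}, fun i => ⟨⟨w, fun _ => {{z}},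
    fun i => ⟨⟨z, rfl⟩, ?_⟩, ?_, ?_⟩, ?_⟩, ?_, ?_⟩, ?_⟩, ?_, ?_⟩
  · intro e he
    rw [mem_singleton] at he
    subst he
    simpa using hwz
  · intro i j hij
    exact absurd (Subsingleton.elim i j) hij
  · simp
  · intro e he
    rw [mem_singleton] at he
    subst he
    simpa using hu
  · intro i j hij
    exact absurd (Subsingleton.elim i j) hij
  · simp
  · intro e he
    rw [mem_singleton] at he
    subst he
    simpa using hv
  · intro i j hij
    exact absurd (Subsingleton.elim i j) hij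
  · simp

theorem min_le_ex {n a b c : ℕ} (ha : 1 ≤ a) (hb : 1 ≤ b) (hc : 1 ≤ c) (h2 : 2 ≤ a * b * c)
    (hn : 4 ≤ n) : min (n ^ 4) (g n a b c) ≤ 50000 * ex n [a, b, c] := by
  rcases Nat.lt_or_ge n (1 + a + a * b + a * b * c) with h | h
  · rw [ex_eq_choose ha hb hc h]
    have := choose4 hn
    exact (min_le_left _ _).trans (by omega)
  · exact (min_le_right _ _).trans (g_le_ex ha hb hc h2 h)

theorem ex_le_min {n a b c : ℕ} (ha : 1 ≤ a) (hb : 1 ≤ b) (hc : 1 ≤ c) :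
    ex n [a, b, c] ≤ 100000000000 * min (n ^ 4) (g n a b c) := by
  rcases le_total (n ^ 4) (g n a b c) with h | h
  · rw [min_eq_left h]
    have := ex_le_choose n a b c
    have := choose_le_pow4 n
    omega
  · rw [min_eq_right h]
    exact ex_le_g ha hb hc

end Pool.Agent.H21.Star
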