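import Pool.Agent.H21.Star.Tree

/-!
# The four constructions
-/

set_option autoImplicit false
set_option linter.unusedSectionVars false

namespace Pool.Agent.H21.Star

open Finset

theorem choose4 {m : ℕ} (hm : 4 ≤ m) : m ^ 4 ≤ 6144 * m.choose 4 := by
  have h1 := Nat.pow_sub_le_descFactorial m 4
  rw [Nat.descFactorial_eq_factorial_mul_choose] at h1
  obtain ⟨k, rfl⟩ := Nat.exists_eq_add_of_le hm
  have h2 : 4 + k + 1 - 4 = k + 1 := by omega
  rw [h2] at h1
  have h3 : (4 + k) ^ 4 ≤ (4 * (k + 1)) ^ 4 := Nat.pow_le_pow_left (by omega) 4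
  have h4 : Nat.factorial 4 = 24 := rfl
  rw [h4] at h1
  rw [mul_pow] at h3
  omega

/-- Disjoint complete hypergraphs. -/
theorem lower4 {n a b c : ℕ} (ha : 1 ≤ a) (hb : 1 ≤ b) (hc : 1 ≤ c) (h2 : 2 ≤ a * b * c)
    (hn : 1 + a + a * b + a * b * c ≤ n) :
    n * (a * b * c) ^ 3 ≤ 12288 * ex n [a, b, c] := by
  classical
  set m := a + a * b + a * b * c with hm
  have hab : a ≤ a * b := Nat.le_mul_of_pos_right _ hb
  have habc : a * b ≤ a * b * c := Nat.le_mul_of_pos_right _ hc
  have hm4 : 4 ≤ m := by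
    have : 1 ≤ a * b := Nat.mul_pos ha hb
    omega
  set N := n / m with hN
  have hN1 : 1 ≤ N := (Nat.one_le_div_iff (by omega)).2 (by omega)
  set F : Finset (Finset (Fin N × Fin m)) :=
    ((univ : Finset (Fin N)) ×ˢ powersetCard 4 (univ : Finset (Fin m))).image
      fun p => ({p.1} : Finset (Fin N)) ×ˢ p.2 with hF
  have hcard : F.card = N * m.choose 4 := by
    rw [hF, card_image_of_injOn, card_product, card_powersetCard]
    · simp
    · rintro ⟨β, S⟩ hS ⟨β', S'⟩ hS' h
      simp only [coe_product, coe_univ, Set.mem_prod, Set.mem_univ, true_and, mem_coe,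
        mem_powersetCard, subset_univ] at hS hS' h
      have hne : S.Nonempty := by rw [← card_pos, hS]; norm_num
      obtain ⟨x, hx⟩ := hne
      have h1 : (β, x) ∈ ({β'} : Finset (Fin N)) ×ˢ S' := by rw [← h]; simp [hx]
      have h2 : β = β' := by simpa using (mem_product.1 h1).1
      subst h2
      refine Prod.ext rfl ?_
      ext y
      have : (β, y) ∈ ({β} : Finset (Fin N)) ×ˢ S ↔ (β, y) ∈ ({β} : Finset (Fin N)) ×ˢ S' := by rw [h]
      simpa using this
  have hle : F.card ≤ ex n [a, b, c] := by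
    refine le_ex_of_type hb hc ha ?_ F ?_ ?_
    · rw [Fintype.card_prod, Fintype.card_fin, Fintype.card_fin]
      exact Nat.div_mul_le_self n m
    · intro e he
      obtain ⟨p, hp, rfl⟩ := mem_image.1 he
      rw [card_product, card_singleton, one_mul]
      exact (mem_powersetCard.1 (mem_product.1 hp).2).2
    · intro T
      have := T.card_le hb hc (({T.v.1} : Finset (Fin N)) ×ˢ (univ : Finset (Fin m))) ?_ ha
      · rw [card_product, card_singleton, one_mul, Finset.card_univ, Fintype.card_fin] at this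
        omega
      · intro e he hv
        obtain ⟨p, hp, rfl⟩ := mem_image.1 he
        have h1 : T.v.1 = p.1 := by simpa using (mem_product.1 hv).1
        rw [h1]
        exact product_subset_product_right (subset_univ _)
  rw [hcard] at hle
  have h5 := choose4 hm4
  have h6 : n < (N + 1) * m := by
    have h7 := Nat.div_add_mod n m
    have h8 := Nat.mod_lt n (show 0 < m by omega)
    rw [← hN] at h7
    rw [add_mul, one_mul, mul_comm N m]
    omega
  have h7 : n ≤ 2 * (N * m) := by
    have : m ≤ N * m := Nat.le_mul_of_pos_left _ hN1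
    rw [add_mul, one_mul] at h6
    omega
  have h8 : (a * b * c) ^ 3 ≤ m ^ 3 := Nat.pow_le_pow_left (by omega) 3
  calc n * (a * b * c) ^ 3 ≤ 2 * (N * m) * m ^ 3 := Nat.mul_le_mul h7 h8
    _ = 2 * N * m ^ 4 := by ring
    _ ≤ 2 * N * (6144 * m.choose 4) := Nat.mul_le_mul_left _ h5
    _ = 12288 * (N * m.choose 4) := by ring
    _ ≤ 12288 * ex n [a, b, c] := Nat.mul_le_mul_left _ hle

/-- Sums in a set of residues. -/
theorem lower1 {n a b c : ℕ} (ha : 1 ≤ a) (hb : 1 ≤ b) (hc : 1 ≤ c) (hn : c ≤ n) (hn4 : 4 ≤ n) :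
    n ^ 3 * (c - 1) ≤ 6144 * ex n [a, b, c] := by
  classical
  haveI : NeZero n := ⟨by omega⟩
  obtain ⟨S, hS, hSc⟩ : ∃ S ⊆ (univ : Finset (ZMod n)), S.card = c - 1 :=
    Finset.exists_subset_card_eq (by rw [Finset.card_univ, ZMod.card]; omega)
  set F : ZMod n → Finset (Finset (ZMod n)) := fun t =>
    (powersetCard 4 (univ : Finset (ZMod n))).filter fun e => (∑ x ∈ e, x) - t ∈ S with hF
  have hle : ∀ t, (F t).card ≤ ex n [a, b, c] := by
    intro t
    refine le_ex_of_type hb hc ha (by rw [ZMod.card]) (F t) ?_ ?_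
    · intro e he
      exact (mem_powersetCard.1 (mem_filter.1 he).1).2
    · intro T
      have i0 : Fin a := ⟨0, ha⟩
      have j0 : Fin b := ⟨0, hb⟩
      have key : ∀ k, T.v + (T.u i0 + (T.w i0 j0 + T.z i0 j0 k)) - t ∈ S := by
        intro k
        have := (mem_filter.1 (T.hE i0 j0 k)).2
        rw [sum_insert, sum_insert, sum_insert, sum_singleton] at this
        · exact this
        · simpa using T.h6 i0 j0 i0 j0 k
        · simpa using ⟨T.h4 i0 i0 j0, T.h5 i0 i0 j0 k⟩
        · simpa using ⟨T.h1 i0, T.h2 i0 j0, T.h3 i0 j0 k⟩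
      have := card_le_card_of_injOn (fun k : Fin c => T.v + (T.u i0 + (T.w i0 j0 + T.z i0 j0 k)) - t)
        (s := univ) (t := S) (fun k _ => key k) ?_
      · rw [Finset.card_univ, Fintype.card_fin, hSc] at this
        omega
      · intro k _ k' _ h
        have h' : T.z i0 j0 k = T.z i0 j0 k' := by
          have : T.v + (T.u i0 + (T.w i0 j0 + T.z i0 j0 k)) - t =
            T.v + (T.u i0 + (T.w i0 j0 + T.z i0 j0 k')) - t := h
          linear_combination this
        exact (T.hz _ _ _ _ _ _ h').2.2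
  have hsum : ∑ t, (F t).card = n.choose 4 * (c - 1) := by
    simp only [hF, card_filter]
    rw [sum_comm]
    have : ∀ e ∈ powersetCard 4 (univ : Finset (ZMod n)),
        (∑ t : ZMod n, if (∑ x ∈ e, x) - t ∈ S then 1 else 0) = c - 1 := by
      intro e _
      rw [← card_filter, ← hSc]
      refine Finset.card_bij (fun t _ => (∑ x ∈ e, x) - t) ?_ ?_ ?_
      · intro t ht
        exact (mem_filter.1 ht).2
      · intro t _ t' _ h
        exact sub_right_injective h
      · intro s hs
        exact ⟨(∑ x ∈ e, x) - s, mem_filter.2 ⟨mem_univ _, by simpa using hs⟩, by simp⟩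
    rw [sum_congr rfl this, sum_const, card_powersetCard, Finset.card_univ, ZMod.card, smul_eq_mul]
  have h1 : n.choose 4 * (c - 1) ≤ n * ex n [a, b, c] := by
    rw [← hsum]
    refine (sum_le_card_nsmul _ _ _ fun t _ => hle t).trans ?_
    rw [Finset.card_univ, ZMod.card, smul_eq_mul]
  have h2 := choose4 hn4
  have h3 : n * (n ^ 3 * (c - 1)) ≤ n * (6144 * ex n [a, b, c]) := by
    calc n * (n ^ 3 * (c - 1)) = n ^ 4 * (c - 1) := by ring
      _ ≤ 6144 * n.choose 4 * (c - 1) := Nat.mul_le_mul_right _ h2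
      _ = 6144 * (n.choose 4 * (c - 1)) := by ring
      _ ≤ 6144 * (n * ex n [a, b, c]) := Nat.mul_le_mul_left _ h1
      _ = _ := by ring
  exact Nat.le_of_mul_le_mul_left h3 (by omega)

end Pool.Agent.H21.Star
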