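import Pool.Agent.H21.Star.Lower

/-!
# The construction with two coordinates that determine the others
-/

set_option autoImplicit false
set_option linter.unusedSectionVars false

namespace Pool.Agent.H21.Star

open Finset

/-- The four positions. -/
def pos {q : ℕ} (p0 p1 : ZMod q) (i : Fin 4) : ZMod q := ![p0, p1, p0 + p1, p0 + 2 * p1] i

theorem two_cancel {q : ℕ} (hq : q % 2 = 1) {x y : ZMod q} (h : 2 * x = 2 * y) : x = y := by
  have hu : IsUnit (2 : ZMod q) := by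
    have : IsUnit ((2 : ℕ) : ZMod q) := by
      rw [ZMod.isUnit_iff_coprime]
      exact (Nat.coprime_two_left).2 (Nat.odd_iff.2 hq)
    simpa using this
  exact hu.mul_left_cancel h

theorem pos_det {q : ℕ} (hq : q % 2 = 1) {p0 p1 r0 r1 : ZMod q} {i j : Fin 4} (hij : i ≠ j)
    (h1 : pos p0 p1 i = pos r0 r1 i) (h2 : pos p0 p1 j = pos r0 r1 j) : p0 = r0 ∧ p1 = r1 := by
  have key : ∀ {i j : Fin 4}, i < j → pos p0 p1 i = pos r0 r1 i → pos p0 p1 j = pos r0 r1 j →
      p0 = r0 ∧ p1 = r1 := by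
    intro i j hij h1 h2
    fin_cases i <;> fin_cases j <;> simp [pos] at h1 h2 hij ⊢
    · exact ⟨h1, h2⟩
    · exact ⟨h1, by linear_combination h2 - h1⟩
    · exact ⟨h1, two_cancel hq (by linear_combination h2 - h1)⟩
    · exact ⟨by linear_combination h2 - h1, h1⟩
    · exact ⟨by linear_combination h2 - 2 * h1, h1⟩
    · have : p1 = r1 := by linear_combination h2 - h1
      exact ⟨by linear_combination h1 - this, this⟩
  rcases lt_or_gt_of_ne hij with h | h
  · exact key h h1 h2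
  · exact key h h2 h1

/-- An edge. -/
def edge2 {q G : ℕ} (p : (ZMod q × ZMod q) × (Fin 4 → Fin G)) : Finset (Fin 4 × ZMod q × Fin G) :=
  univ.image fun i => (i, pos p.1.1 p.1.2 i, p.2 i)

theorem mem_edge2 {q G : ℕ} {p : (ZMod q × ZMod q) × (Fin 4 → Fin G)} {x : Fin 4 × ZMod q × Fin G} :
    x ∈ edge2 p ↔ x.2.1 = pos p.1.1 p.1.2 x.1 ∧ x.2.2 = p.2 x.1 := by
  obtain ⟨i, y, g⟩ := x
  simp only [edge2, mem_image, mem_univ, true_and, Prod.mk.injEq]
  constructor
  · rintro ⟨i', rfl, rfl, rfl⟩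
    exact ⟨rfl, rfl⟩
  · rintro ⟨rfl, rfl⟩
    exact ⟨i, rfl, rfl, rfl⟩

theorem edge2_inj {q G : ℕ} : Function.Injective (edge2 (q := q) (G := G)) := by
  rintro ⟨⟨p0, p1⟩, g⟩ ⟨⟨r0, r1⟩, g'⟩ h
  have key : ∀ i, pos p0 p1 i = pos r0 r1 i ∧ g i = g' i := by
    intro i
    have : (i, pos p0 p1 i, g i) ∈ edge2 ((p0, p1), g) := mem_edge2.2 ⟨rfl, rfl⟩
    rw [h, mem_edge2] at this
    exact this
  have h0 := (key 0).1
  have h1 := (key 1).1
  simp only [pos, Matrix.cons_val_zero, Matrix.cons_val_one] at h0 h1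
  subst h0; subst h1
  congr 1
  funext i
  exact (key i).2

theorem edge2_card {q G : ℕ} (p : (ZMod q × ZMod q) × (Fin 4 → Fin G)) : (edge2 p).card = 4 := by
  rw [edge2, card_image_of_injective]
  · simp
  · intro i j h
    exact (Prod.mk.inj h).1

theorem lower2 {n a b c q G : ℕ} (ha : 1 ≤ a) (hb : 1 ≤ b) (hc : 1 ≤ c) (hq : q % 2 = 1)
    (hG : 2 * G < b + b * c) (hn : 4 * (q * G) ≤ n) :
    q ^ 2 * G ^ 4 ≤ ex n [a, b, c] := by
  classical
  haveI : NeZero q := ⟨by omega⟩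
  set F : Finset (Finset (Fin 4 × ZMod q × Fin G)) := univ.image edge2 with hF
  have hcard : F.card = q ^ 2 * G ^ 4 := by
    rw [hF, card_image_of_injective _ edge2_inj, Finset.card_univ]
    simp only [Fintype.card_prod, Fintype.card_fun, Fintype.card_fin, ZMod.card]
    ring
  rw [← hcard]
  refine le_ex_of_type hb hc ha ?_ F ?_ ?_
  · simp only [Fintype.card_prod, Fintype.card_fin, ZMod.card]
    exact hn
  · intro e he
    obtain ⟨p, -, rfl⟩ := mem_image.1 he
    exact edge2_card p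
  · intro T
    have i0 : Fin a := ⟨0, ha⟩
    have j0 : Fin b := ⟨0, hb⟩
    have k0 : Fin c := ⟨0, hc⟩
    have hex : ∀ j k, ∃ p : (ZMod q × ZMod q) × (Fin 4 → Fin G), edge2 p =
        {T.v, T.u i0, T.w i0 j, T.z i0 j k} := by
      intro j k
      obtain ⟨p, -, hp⟩ := mem_image.1 (T.hE i0 j k)
      exact ⟨p, hp⟩
    -- two vertices of an edge have different classes
    have hcls : ∀ (p : (ZMod q × ZMod q) × (Fin 4 → Fin G)) x y, x ∈ edge2 p → y ∈ edge2 p →
        x ≠ y → x.1 ≠ y.1 := by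
      intro p x y hx hy hne h
      apply hne
      rw [mem_edge2] at hx hy
      refine Prod.ext h (Prod.ext ?_ ?_)
      · rw [hx.1, hy.1, h]
      · rw [hx.2, hy.2, h]
    obtain ⟨P, hP⟩ := hex j0 k0
    have hvP : T.v ∈ edge2 P := by rw [hP]; simp
    have huP : T.u i0 ∈ edge2 P := by rw [hP]; simp
    have hvu : T.v.1 ≠ (T.u i0).1 := hcls P _ _ hvP huP (T.h1 i0)
    set S : Finset (Fin 4 × ZMod q × Fin G) :=
      ((univ.filter fun i : Fin 4 => i ≠ T.v.1 ∧ i ≠ (T.u i0).1) ×ˢ (univ : Finset (Fin G))).image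
        fun x => (x.1, pos P.1.1 P.1.2 x.1, x.2) with hS
    have hScard : S.card ≤ 2 * G := by
      refine card_image_le.trans ?_
      rw [card_product, Finset.card_univ, Fintype.card_fin]
      refine Nat.mul_le_mul_right _ ?_
      have : ∀ x y : Fin 4, x ≠ y → (univ.filter fun i : Fin 4 => i ≠ x ∧ i ≠ y).card ≤ 2 := by decide
      exact this _ _ hvu
    have hmem : ∀ j k x, x ∈ ({T.v, T.u i0, T.w i0 j, T.z i0 j k} : Finset _) → x ≠ T.v → x ≠ T.u i0 →
        x ∈ S := by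
      intro j k x hx hxv hxu
      obtain ⟨p, hp⟩ := hex j k
      rw [← hp] at hx
      have hvp : T.v ∈ edge2 p := by rw [hp]; simp
      have hup : T.u i0 ∈ edge2 p := by rw [hp]; simp
      have h1 := (mem_edge2.1 hvP).1
      have h2 := (mem_edge2.1 hvp).1
      have h3 := (mem_edge2.1 huP).1
      have h4 := (mem_edge2.1 hup).1
      obtain ⟨e1, e2⟩ := pos_det hq hvu (h1.symm.trans h2) (h3.symm.trans h4)
      refine mem_image.2 ⟨(x.1, x.2.2), ?_, ?_⟩
      · simp only [mem_product, mem_filter, mem_univ, true_and, and_true]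
        exact ⟨hcls p _ _ hx hvp hxv, hcls p _ _ hx hup hxu⟩
      · refine Prod.ext rfl (Prod.ext ?_ rfl)
        simp only
        rw [e1, e2, (mem_edge2.1 hx).1]
    let f : Fin b ⊕ (Fin b × Fin c) → Fin 4 × ZMod q × Fin G :=
      Sum.elim (T.w i0) fun p => T.z i0 p.1 p.2
    have hf : Function.Injective f := by
      rintro (j | ⟨j, k⟩) (j' | ⟨j', k'⟩) h
      · obtain ⟨-, rfl⟩ := T.hw _ _ _ _ h
        rfl
      · exact absurd h (T.h6 _ _ _ _ _)
      · exact absurd h.symm (T.h6 _ _ _ _ _)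
      · obtain ⟨-, rfl, rfl⟩ := T.hz _ _ _ _ _ _ h
        rfl
    have hfS : ∀ x, f x ∈ S := by
      rintro (j | ⟨j, k⟩)
      · exact hmem j k0 _ (by simp [f]) (T.h2 i0 j).symm (T.h4 i0 i0 j).symm
      · exact hmem j k _ (by simp [f]) (T.h3 i0 j k).symm (T.h5 i0 i0 j k).symm
    have := card_le_card_of_injOn f (s := univ) (t := S) (fun x _ => hfS x) (fun x _ y _ h => hf h)
    simp only [Finset.card_univ, Fintype.card_sum, Fintype.card_prod, Fintype.card_fin] at this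
    omega

theorem lower2' {n a b c : ℕ} (ha : 1 ≤ a) (hb : 1 ≤ b) (hc : 1 ≤ c) (hbc : 2 ≤ b * c)
    (hn : b * c ≤ n) (hn4 : 4 ≤ n) : n ^ 2 * (b * c) ^ 2 ≤ 9216 * ex n [a, b, c] := by
  set G := min (b * c / 2) (n / 4) with hG
  have hG1 : 1 ≤ G := by
    rw [hG, le_min_iff]
    omega
  have hGb : b * c ≤ 8 * G := by
    rcases le_total (b * c / 2) (n / 4) with h | h
    · rw [hG, min_eq_left h]; omega
    · rw [hG, min_eq_right h]; omega
  have hGn : 4 * G ≤ n := by
    have : G ≤ n / 4 := min_le_right _ _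
    omega
  have hGc : 2 * G ≤ b * c := by
    have : G ≤ b * c / 2 := min_le_left _ _
    omega
  set q0 := n / (4 * G) with hq0
  have hq01 : 1 ≤ q0 := (Nat.one_le_div_iff (by omega)).2 hGn
  have h7 := Nat.div_add_mod n (4 * G)
  have h8 := Nat.mod_lt n (show 0 < 4 * G by omega)
  rw [← hq0] at h7
  obtain ⟨q, hqo, hq1, hq2⟩ : ∃ q, q % 2 = 1 ∧ q ≤ q0 ∧ q0 + 1 ≤ 3 * q := by
    rcases Nat.mod_two_eq_zero_or_one q0 with h | h
    · exact ⟨q0 - 1, by omega, by omega, by omega⟩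
    · exact ⟨q0, h, le_rfl, by omega⟩
  have h9 : 4 * (q * G) ≤ n := by
    calc 4 * (q * G) = 4 * G * q := by ring
      _ ≤ 4 * G * q0 := Nat.mul_le_mul_left _ hq1
      _ ≤ n := by omega
  have h10 : n ≤ 12 * (q * G) := by
    calc n ≤ 4 * G * (q0 + 1) := by rw [mul_add]; omega
      _ ≤ 4 * G * (3 * q) := Nat.mul_le_mul_left _ hq2
      _ = _ := by ring
  have h11 := lower2 (n := n) (a := a) ha hb hc hqo (G := G) (by omega) h9
  calc n ^ 2 * (b * c) ^ 2 ≤ (12 * (q * G)) ^ 2 * (8 * G) ^ 2 :=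
        Nat.mul_le_mul (Nat.pow_le_pow_left h10 2) (Nat.pow_le_pow_left hGb 2)
    _ = 9216 * (q ^ 2 * G ^ 4) := by ring
    _ ≤ _ := Nat.mul_le_mul_left _ h11

end Pool.Agent.H21.Star
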