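import Pool.Agent.H21.Star.Lower2

/-!
# The construction with a kernel
-/

set_option autoImplicit false
set_option linter.unusedSectionVars false

namespace Pool.Agent.H21.Star

open Finset

/-- An edge: two kernel vertices in the same block, and two outer vertices. -/
def edge3 {B G h : ℕ} (p : Fin B × (Fin G × Fin G) × (Fin h × Fin h)) :
    Finset ((Bool × Fin B × Fin G) ⊕ (Bool × Fin h)) :=
  {Sum.inl (true, p.1, p.2.1.1), Sum.inl (false, p.1, p.2.1.2), Sum.inr (true, p.2.2.1),
    Sum.inr (false, p.2.2.2)}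

theorem edge3_inj {B G h : ℕ} : Function.Injective (edge3 (B := B) (G := G) (h := h)) := by
  rintro ⟨β, ⟨g1, g2⟩, ⟨x, y⟩⟩ ⟨β', ⟨g1', g2'⟩, ⟨x', y'⟩⟩ hh
  have h1 : Sum.inl (true, β, g1) ∈ edge3 (β', (g1', g2'), (x', y')) := by
    rw [← hh]; simp [edge3]
  have h2 : Sum.inl (false, β, g2) ∈ edge3 (β', (g1', g2'), (x', y')) := by
    rw [← hh]; simp [edge3]
  have h3 : Sum.inr (true, x) ∈ edge3 (β', (g1', g2'), (x', y')) := by
    rw [← hh]; simp [edge3]
  have h4 : Sum.inr (false, y) ∈ edge3 (β', (g1', g2'), (x', y')) := by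
    rw [← hh]; simp [edge3]
  simp [edge3] at h1 h2 h3 h4
  simp_all

theorem edge3_card {B G h : ℕ} (p : Fin B × (Fin G × Fin G) × (Fin h × Fin h)) :
    (edge3 p).card = 4 := by
  rw [edge3, card_insert_of_notMem, card_insert_of_notMem, card_insert_of_notMem, card_singleton] <;>
    simp

theorem Tree.disj {V : Type*} [DecidableEq V] {E : Finset (Finset V)} {a b c : ℕ}
    (T : Tree E a b c) {i i' : Fin a} {j j' : Fin b} {k k' : Fin c} (hne : i ≠ i') :
    Disjoint ({T.u i, T.w i j, T.z i j k} : Finset V) {T.u i', T.w i' j', T.z i' j' k'} := by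
  rw [disjoint_left]
  intro y hy hy'
  simp only [mem_insert, mem_singleton] at hy hy'
  rcases hy with rfl | rfl | rfl <;> rcases hy' with h | h | h
  · exact hne (T.hu h)
  · exact T.h4 _ _ _ h
  · exact T.h5 _ _ _ _ h
  · exact T.h4 _ _ _ h.symm
  · exact hne (T.hw _ _ _ _ h).1
  · exact T.h6 _ _ _ _ _ h
  · exact T.h5 _ _ _ _ h.symm
  · exact T.h6 _ _ _ _ _ h.symm
  · exact hne (T.hz _ _ _ _ _ _ h).1

theorem Tree.disj2 {V : Type*} [DecidableEq V] {E : Finset (Finset V)} {a b c : ℕ}
    (T : Tree E a b c) {p p' : Fin a × Fin b} {k k' : Fin c} (hne : p ≠ p') :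
    Disjoint ({T.w p.1 p.2, T.z p.1 p.2 k} : Finset V) {T.w p'.1 p'.2, T.z p'.1 p'.2 k'} := by
  rw [disjoint_left]
  intro y hy hy'
  simp only [mem_insert, mem_singleton] at hy hy'
  rcases hy with rfl | rfl <;> rcases hy' with h | h
  · exact hne (Prod.ext (T.hw _ _ _ _ h).1 (T.hw _ _ _ _ h).2)
  · exact T.h6 _ _ _ _ _ h
  · exact T.h6 _ _ _ _ _ h.symm
  · exact hne (Prod.ext (T.hz _ _ _ _ _ _ h).1 (T.hz _ _ _ _ _ _ h).2.1)

theorem lower3 {n a b c B G h : ℕ} (ha : 1 ≤ a) (hb : 1 ≤ b) (hc : 1 ≤ c) (hG : G < a)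
    (hB : B * G < a ∨ 2 * (B * G) < a * b) (hn : 2 * (B * G) + 2 * h ≤ n) :
    B * G ^ 2 * h ^ 2 ≤ ex n [a, b, c] := by
  classical
  set F : Finset (Finset ((Bool × Fin B × Fin G) ⊕ (Bool × Fin h))) := univ.image edge3 with hF
  have hcard : F.card = B * G ^ 2 * h ^ 2 := by
    rw [hF, card_image_of_injective _ edge3_inj, Finset.card_univ]
    simp only [Fintype.card_prod, Fintype.card_fin]
    ring
  rw [← hcard]
  refine le_ex_of_type hb hc ha ?_ F ?_ ?_
  · simp only [Fintype.card_sum, Fintype.card_prod, Fintype.card_fin, Fintype.card_bool]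
    exact hn
  · intro e he
    obtain ⟨p, -, rfl⟩ := mem_image.1 he
    exact edge3_card p
  · intro T
    have i0 : Fin a := ⟨0, ha⟩
    have j0 : Fin b := ⟨0, hb⟩
    have k0 : Fin c := ⟨0, hc⟩
    have hex : ∀ i j k, ∃ p : Fin B × (Fin G × Fin G) × (Fin h × Fin h), edge3 p =
        {T.v, T.u i, T.w i j, T.z i j k} := by
      intro i j k
      obtain ⟨p, -, hp⟩ := mem_image.1 (T.hE i j k)
      exact ⟨p, hp⟩
    -- a set that meets all the branches
    have meet : ∀ S : Finset ((Bool × Fin B × Fin G) ⊕ (Bool × Fin h)), S.card < a →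
        (∀ i, ∃ y ∈ S, y ∈ ({T.u i, T.w i j0, T.z i j0 k0} : Finset _)) → False := by
      intro S hS hmeet
      choose y hy hy' using hmeet
      have := card_le_card_of_injOn y (s := univ) (t := S) (fun x _ => hy x) ?_
      · rw [Finset.card_univ, Fintype.card_fin] at this
        omega
      · intro i _ i' _ hii
        by_contra hne
        have := T.disj (j := j0) (j' := j0) (k := k0) (k' := k0) hne
        rw [disjoint_left] at this
        exact this (hy' i) (by rw [hii]; exact hy' i')
    rcases hv : T.v with ⟨s, β, g⟩ | ⟨s, x⟩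
    · -- the centre is in the kernel
      apply meet (univ.image fun g' : Fin G => Sum.inl (!s, β, g'))
      · exact lt_of_le_of_lt (card_image_le.trans (by simp)) hG
      · intro i
        obtain ⟨p, hp⟩ := hex i j0 k0
        have hvp : T.v ∈ edge3 p := by rw [hp]; simp
        rw [hv] at hvp
        obtain ⟨β', ⟨g1, g2⟩, ⟨y1, y2⟩⟩ := p
        cases s
        · have h1 : β = β' := by
            simp [edge3] at hvp
            exact hvp.1
          subst h1
          refine ⟨Sum.inl (true, β, g1), mem_image.2 ⟨g1, mem_univ _, rfl⟩, ?_⟩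
          have h2 : Sum.inl (true, β, g1) ∈ edge3 (β, (g1, g2), (y1, y2)) := by simp [edge3]
          rw [hp, hv, mem_insert] at h2
          rcases h2 with h2 | h2
          · simp at h2
          · exact h2
        · have h1 : β = β' := by
            simp [edge3] at hvp
            exact hvp.1
          subst h1
          refine ⟨Sum.inl (false, β, g2), mem_image.2 ⟨g2, mem_univ _, rfl⟩, ?_⟩
          have h2 : Sum.inl (false, β, g2) ∈ edge3 (β, (g1, g2), (y1, y2)) := by simp [edge3]
          rw [hp, hv, mem_insert] at h2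
          rcases h2 with h2 | h2
          · simp at h2
          · exact h2
    · -- the centre is an outer vertex
      have hker : ∀ i j k, ∃ β g1 g2, Sum.inl (true, β, g1) ∈ ({T.u i, T.w i j, T.z i j k} : Finset _) ∧
          Sum.inl (false, β, g2) ∈ ({T.u i, T.w i j, T.z i j k} : Finset _) := by
        intro i j k
        obtain ⟨⟨β, ⟨g1, g2⟩, ⟨y1, y2⟩⟩, hp⟩ := hex i j k
        refine ⟨β, g1, g2, ?_, ?_⟩
        · have h2 : Sum.inl (true, β, g1) ∈ edge3 (β, (g1, g2), (y1, y2)) := by simp [edge3]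
          rw [hp, hv, mem_insert] at h2
          rcases h2 with h2 | h2
          · simp at h2
          · exact h2
        · have h2 : Sum.inl (false, β, g2) ∈ edge3 (β, (g1, g2), (y1, y2)) := by simp [edge3]
          rw [hp, hv, mem_insert] at h2
          rcases h2 with h2 | h2
          · simp at h2
          · exact h2
      rcases hB with hB | hB
      · apply meet (univ.image fun p : Fin B × Fin G => Sum.inl (true, p.1, p.2))
        · exact lt_of_le_of_lt (card_image_le.trans (by simp)) hB
        · intro i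
          obtain ⟨β, g1, g2, h1, h2⟩ := hker i j0 k0
          exact ⟨_, mem_image.2 ⟨(β, g1), mem_univ _, rfl⟩, h1⟩
      · have hmeet : ∀ p : Fin a × Fin b, ∃ y ∈ (univ.image fun p : Bool × Fin B × Fin G => Sum.inl p :
            Finset ((Bool × Fin B × Fin G) ⊕ (Bool × Fin h))),
            y ∈ ({T.w p.1 p.2, T.z p.1 p.2 k0} : Finset _) := by
          intro p
          obtain ⟨β, g1, g2, h1, h2⟩ := hker p.1 p.2 k0
          rw [mem_insert] at h1 h2
          rcases h1 with h1 | h1
          · rcases h2 with h2 | h2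
            · rw [← h1] at h2
              simp at h2
            · exact ⟨_, mem_image.2 ⟨_, mem_univ _, rfl⟩, h2⟩
          · exact ⟨_, mem_image.2 ⟨_, mem_univ _, rfl⟩, h1⟩
        choose y hy hy' using hmeet
        have := card_le_card_of_injOn y (s := univ) (fun x _ => hy x) ?_
        · rw [Finset.card_univ, Fintype.card_prod, Fintype.card_fin, Fintype.card_fin] at this
          have h3 := this.trans card_image_le
          simp only [Finset.card_univ, Fintype.card_prod, Fintype.card_fin, Fintype.card_bool] at h3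
          omega
        · intro i _ i' _ hii
          by_contra hne
          have := T.disj2 (k := k0) (k' := k0) hne
          rw [disjoint_left] at this
          exact this (hy' i) (by rw [hii]; exact hy' i')

theorem lower3' {n a b c : ℕ} (ha : 2 ≤ a) (hb : 1 ≤ b) (hc : 1 ≤ c)
    (hn : 1 + a + a * b + a * b * c ≤ n) : n ^ 2 * (a ^ 2 * b) ≤ 1728 * ex n [a, b, c] := by
  have hab : a ≤ a * b := Nat.le_mul_of_pos_right _ hb
  have habc : a * b ≤ a * b * c := Nat.le_mul_of_pos_right _ hc
  set h := n / 6 with hh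
  have hh1 : n ≤ 12 * h := by omega
  obtain ⟨B, hB1, hB2, hB3⟩ : ∃ B, b ≤ 3 * B ∧ (B * (a - 1) < a ∨ 2 * (B * (a - 1)) < a * b) ∧
      2 * (B * (a - 1)) + 2 * h ≤ n := by
    rcases Nat.lt_or_ge b 2 with hb2 | hb2
    · have : b = 1 := by omega
      subst this
      refine ⟨1, by omega, Or.inl (by omega), by omega⟩
    · have h1 : 2 * (b / 2 * (a - 1)) ≤ b * (a - 1) := by
        calc 2 * (b / 2 * (a - 1)) = (2 * (b / 2)) * (a - 1) := by ring
          _ ≤ b * (a - 1) := Nat.mul_le_mul_right _ (by omega)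
      have h2 : b * (a - 1) + b = a * b := by
        obtain ⟨a', rfl⟩ := Nat.exists_eq_add_of_le ha
        have : 2 + a' - 1 = 1 + a' := by omega
        rw [this]
        ring
      refine ⟨b / 2, by omega, Or.inr (by omega), by omega⟩
  have h11 := lower3 (n := n) (a := a) (by omega) hb hc (G := a - 1) (h := h) (by omega) hB2 hB3
  calc n ^ 2 * (a ^ 2 * b) ≤ (12 * h) ^ 2 * ((2 * (a - 1)) ^ 2 * (3 * B)) :=
        Nat.mul_le_mul (Nat.pow_le_pow_left hh1 2)
          (Nat.mul_le_mul (Nat.pow_le_pow_left (by omega) 2) hB1)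
    _ = 1728 * (B * (a - 1) ^ 2 * h ^ 2) := by ring
    _ ≤ _ := Nat.mul_le_mul_left _ h11

end Pool.Agent.H21.Star
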