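import Pool.Agent.H21.Star.Defs

/-!
# Packing lemmas for ordered stars in relations
-/

set_option autoImplicit false

namespace Pool.Agent.H21.Star

open Finset

theorem exists_last {P : ℕ → Prop} {a : ℕ} (h0 : P 0) (ha : ¬ P a) : ∃ m < a, P m ∧ ¬ P (m + 1) := by
  induction a with
  | zero => exact absurd h0 ha
  | succ a ih =>
    by_cases h : P a
    · exact ⟨a, Nat.lt_succ_self a, h, ha⟩
    · obtain ⟨m, hm, h1, h2⟩ := ih h
      exact ⟨m, hm.trans (Nat.lt_succ_self a), h1, h2⟩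

set_option linter.unusedSectionVars false

variable {V : Type*} [Fintype V] [DecidableEq V]

/-- One level: `c` different vertices. -/
def Star1 (Q : V → Prop) (c : ℕ) : Prop := ∃ z : Fin c → V, Function.Injective z ∧ ∀ k, Q (z k)

/-- Two levels. -/
def Star2 (Q : V → V → Prop) (b c : ℕ) : Prop :=
  ∃ (w : Fin b → V) (z : Fin b → Fin c → V), Function.Injective w ∧
    (∀ j k j' k', z j k = z j' k' → j = j' ∧ k = k') ∧ ∀ j k, Q (w j) (z j k)

/-- Three levels. -/
def Star3 (Q : V → V → V → Prop) (a b c : ℕ) : Prop :=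
  ∃ (u : Fin a → V) (w : Fin a → Fin b → V) (z : Fin a → Fin b → Fin c → V), Function.Injective u ∧
    (∀ i j i' j', w i j = w i' j' → i = i' ∧ j = j') ∧
    (∀ i j k i' j' k', z i j k = z i' j' k' → i = i' ∧ j = j' ∧ k = k') ∧
    ∀ i j k, Q (u i) (w i j) (z i j k)

theorem pack1 (Q : V → Prop) [DecidablePred Q] {c : ℕ} (h : ¬ Star1 Q c) : (univ.filter Q).card < c := by
  by_contra hc
  push Not at hc
  obtain ⟨t, ht, htc⟩ := Finset.exists_subset_card_eq hc
  refine h ⟨fun k => (t.equivFin.symm (Fin.cast htc.symm k) : V), ?_, fun k => ?_⟩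
  · intro k k' hk
    simpa using hk
  · have := ht (t.equivFin.symm (Fin.cast htc.symm k)).2
    simpa using this

theorem pack2 (Q : V → V → Prop) {b c : ℕ} (hc : 1 ≤ c) (h : ¬ Star2 Q b c) :
    ∃ (C2 C3 : Finset V) (E3 : V → Finset V), C2.card < b ∧ C3.card < b * c ∧
      (∀ w, (E3 w).card < c) ∧ ∀ w z, Q w z → w ∈ C2 ∨ z ∈ C3 ∨ z ∈ E3 w := by
  classical
  obtain ⟨m, hm, h0, hm1⟩ := exists_last (P := fun m => Star2 Q m c)
    ⟨Fin.elim0, fun i => i.elim0, fun i => i.elim0, fun i => i.elim0, fun i => i.elim0⟩ h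
  obtain ⟨w, z, hw, hz, hQ⟩ : Star2 Q m c := h0
  refine ⟨univ.image w, univ.image fun p : Fin m × Fin c => z p.1 p.2, fun w' => univ.filter fun z' =>
    Q w' z' ∧ w' ∉ univ.image w ∧ z' ∉ univ.image fun p : Fin m × Fin c => z p.1 p.2, ?_, ?_, ?_, ?_⟩
  · exact lt_of_le_of_lt (card_image_le.trans (by simp)) hm
  · refine lt_of_le_of_lt (card_image_le.trans (by simp)) (?_ : m * c < b * c)
    exact Nat.mul_lt_mul_of_pos_right hm hc
  · intro w'
    refine pack1 _ ?_
    rintro ⟨s, hs, hs2⟩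
    apply hm1
    refine ⟨Fin.cons w' w, Fin.cons s z, ?_, ?_, ?_⟩
    · rw [Fin.cons_injective_iff]
      refine ⟨?_, hw⟩
      have := (hs2 ⟨0, hc⟩).2.1
      simpa using this
    · intro j k j' k' hjk
      refine Fin.cases ?_ (fun j => ?_) j hjk
      · refine Fin.cases ?_ (fun j' => ?_) j'
        · intro h1
          simp only [Fin.cons_zero] at h1
          exact ⟨rfl, hs h1⟩
        · intro h1
          simp only [Fin.cons_zero, Fin.cons_succ] at h1
          exact absurd (mem_image.2 ⟨(j', k'), mem_univ _, h1.symm⟩) (hs2 k).2.2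
      · refine Fin.cases ?_ (fun j' => ?_) j'
        · intro h1
          simp only [Fin.cons_zero, Fin.cons_succ] at h1
          exact absurd (mem_image.2 ⟨(j, k), mem_univ _, h1⟩) (hs2 k').2.2
        · intro h1
          simp only [Fin.cons_succ] at h1
          obtain ⟨h2, h3⟩ := hz _ _ _ _ h1
          exact ⟨by rw [h2], h3⟩
    · intro j k
      refine Fin.cases ?_ (fun j => ?_) j
      · simpa using (hs2 k).1
      · simpa using hQ j k
  · intro w' z' hq
    by_cases h1 : w' ∈ univ.image w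
    · exact Or.inl h1
    by_cases h2 : z' ∈ univ.image fun p : Fin m × Fin c => z p.1 p.2
    · exact Or.inr (Or.inl h2)
    · exact Or.inr (Or.inr (mem_filter.2 ⟨mem_univ _, hq, h1, h2⟩))

theorem pack3 (Q : V → V → V → Prop) {a b c : ℕ} (hb : 1 ≤ b) (hc : 1 ≤ c) (h : ¬ Star3 Q a b c) :
    ∃ (C1 C2 C3 : Finset V) (D2 D3 : V → Finset V) (E3 : V → V → Finset V),
      C1.card < a ∧ C2.card < a * b ∧ C3.card < a * b * c ∧ (∀ u, (D2 u).card < b) ∧
      (∀ u, (D3 u).card < b * c) ∧ (∀ u w, (E3 u w).card < c) ∧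
      ∀ u w z, Q u w z → u ∈ C1 ∨ w ∈ C2 ∨ z ∈ C3 ∨ w ∈ D2 u ∨ z ∈ D3 u ∨ z ∈ E3 u w := by
  classical
  obtain ⟨m, hm, h0, hm1⟩ := exists_last (P := fun m => Star3 Q m b c)
    ⟨Fin.elim0, fun i => i.elim0, fun i => i.elim0, fun i => i.elim0, fun i => i.elim0,
      fun i => i.elim0, fun i => i.elim0⟩ h
  obtain ⟨u, w, z, hu, hw, hz, hQ⟩ : Star3 Q m b c := h0
  set C1 : Finset V := univ.image u with hC1
  set C2 : Finset V := univ.image fun p : Fin m × Fin b => w p.1 p.2 with hC2
  set C3 : Finset V := univ.image fun p : Fin m × Fin b × Fin c => z p.1 p.2.1 p.2.2 with hC3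
  have key : ∀ u', ¬ Star2 (fun w' z' => Q u' w' z' ∧ u' ∉ C1 ∧ w' ∉ C2 ∧ z' ∉ C3) b c := by
    rintro u' ⟨w', z', hw', hz', hq'⟩
    apply hm1
    refine ⟨Fin.cons u' u, Fin.cons w' w, Fin.cons z' z, ?_, ?_, ?_, ?_⟩
    · rw [Fin.cons_injective_iff]
      refine ⟨?_, hu⟩
      have := (hq' ⟨0, hb⟩ ⟨0, hc⟩).2.1
      simpa [hC1] using this
    · intro i j i' j' hij
      refine Fin.cases ?_ (fun i => ?_) i hij
      · refine Fin.cases ?_ (fun i' => ?_) i'
        · intro h1
          simp only [Fin.cons_zero] at h1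
          exact ⟨rfl, hw' h1⟩
        · intro h1
          simp only [Fin.cons_zero, Fin.cons_succ] at h1
          exact absurd (mem_image.2 ⟨(i', j'), mem_univ _, h1.symm⟩) (hq' j ⟨0, hc⟩).2.2.1
      · refine Fin.cases ?_ (fun i' => ?_) i'
        · intro h1
          simp only [Fin.cons_zero, Fin.cons_succ] at h1
          exact absurd (mem_image.2 ⟨(i, j), mem_univ _, h1⟩) (hq' j' ⟨0, hc⟩).2.2.1
        · intro h1
          simp only [Fin.cons_succ] at h1
          obtain ⟨h2, h3⟩ := hw _ _ _ _ h1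
          exact ⟨by rw [h2], h3⟩
    · intro i j k i' j' k' hij
      refine Fin.cases ?_ (fun i => ?_) i hij
      · refine Fin.cases ?_ (fun i' => ?_) i'
        · intro h1
          simp only [Fin.cons_zero] at h1
          exact ⟨rfl, hz' _ _ _ _ h1⟩
        · intro h1
          simp only [Fin.cons_zero, Fin.cons_succ] at h1
          exact absurd (mem_image.2 ⟨(i', j', k'), mem_univ _, h1.symm⟩) (hq' j k).2.2.2
      · refine Fin.cases ?_ (fun i' => ?_) i'
        · intro h1
          simp only [Fin.cons_zero, Fin.cons_succ] at h1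
          exact absurd (mem_image.2 ⟨(i, j, k), mem_univ _, h1⟩) (hq' j' k').2.2.2
        · intro h1
          simp only [Fin.cons_succ] at h1
          obtain ⟨h2, h3, h4⟩ := hz _ _ _ _ _ _ h1
          exact ⟨by rw [h2], h3, h4⟩
    · intro i j k
      refine Fin.cases ?_ (fun i => ?_) i
      · simpa using (hq' j k).1
      · simpa using hQ i j k
  choose D2 D3 E3 h1 h2 h3 h4 using fun u' => pack2 _ hc (key u')
  refine ⟨C1, C2, C3, D2, D3, E3, ?_, ?_, ?_, h1, h2, h3, ?_⟩
  · exact lt_of_le_of_lt (card_image_le.trans (by simp)) hm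
  · refine lt_of_le_of_lt (card_image_le.trans (by simp)) (?_ : m * b < a * b)
    exact Nat.mul_lt_mul_of_pos_right hm hb
  · refine lt_of_le_of_lt (card_image_le.trans (by simp [mul_assoc])) (?_ : m * b * c < a * b * c)
    exact Nat.mul_lt_mul_of_pos_right (Nat.mul_lt_mul_of_pos_right hm hb) hc
  · intro u' w' z' hq
    by_cases h5 : u' ∈ C1
    · exact Or.inl h5
    by_cases h6 : w' ∈ C2
    · exact Or.inr (Or.inl h6)
    by_cases h7 : z' ∈ C3
    · exact Or.inr (Or.inr (Or.inl h7))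
    · exact Or.inr (Or.inr (Or.inr (h4 u' w' z' ⟨hq, h5, h6, h7⟩)))

end Pool.Agent.H21.Star
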