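import Pool.Agent.H21.Star.Upper

/-!
# The vertices of a generalised star; lower bounds for the Turan number
-/

set_option autoImplicit false
set_option linter.unusedSectionVars false

namespace Pool.Agent.H21.Star

open Finset

/-- The vertices of a copy of `St_4(a, b, c)` all of whose edges are in `E`. -/
structure Tree {V : Type*} [DecidableEq V] (E : Finset (Finset V)) (a b c : ℕ) where
  v : V
  u : Fin a → V
  w : Fin a → Fin b → V
  z : Fin a → Fin b → Fin c → V
  hu : Function.Injective u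
  hw : ∀ i j i' j', w i j = w i' j' → i = i' ∧ j = j'
  hz : ∀ i j k i' j' k', z i j k = z i' j' k' → i = i' ∧ j = j' ∧ k = k'
  h1 : ∀ i, v ≠ u i
  h2 : ∀ i j, v ≠ w i j
  h3 : ∀ i j k, v ≠ z i j k
  h4 : ∀ i i' j, u i ≠ w i' j
  h5 : ∀ i i' j k, u i ≠ z i' j k
  h6 : ∀ i j i' j' k, w i j ≠ z i' j' k
  hE : ∀ i j k, ({v, u i, w i j, z i j k} : Finset V) ∈ E

theorem tree_of_isStar {V : Type*} [DecidableEq V] {E : Finset (Finset V)} {a b c : ℕ} (hb : 1 ≤ b)
    (hc : 1 ≤ c) (h : IsStar [a, b, c] E) : Nonempty (Tree E a b c) := by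
  obtain ⟨v, P, hP, hdis, rfl⟩ := h
  have hP1 : ∀ i, IsStar [b, c] (P i) := fun i => (hP i).1
  choose u P' hP' hdis' hE' using hP1
  have hP2 : ∀ i j, IsStar [c] (P' i j) := fun i j => (hP' i j).1
  choose w P'' hP'' hdis'' hE'' using hP2
  have hP3 : ∀ i j k, IsStar [] (P'' i j k) := fun i j k => (hP'' i j k).1
  choose z hz using hP3
  have e1 : ∀ i j k, ({z i j k} : Finset V) ∈ P'' i j k := fun i j k => by rw [hz]; simp
  have e2 : ∀ i j k, ({w i j, z i j k} : Finset V) ∈ P' i j := by
    intro i j k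
    rw [hE'']
    exact mem_biUnion.2 ⟨k, mem_univ _, mem_image.2 ⟨_, e1 i j k, rfl⟩⟩
  have e3 : ∀ i j k, ({u i, w i j, z i j k} : Finset V) ∈ P i := by
    intro i j k
    rw [hE']
    exact mem_biUnion.2 ⟨j, mem_univ _, mem_image.2 ⟨_, e2 i j k, rfl⟩⟩
  have k0 : Fin c := ⟨0, hc⟩
  have j0 : Fin b := ⟨0, hb⟩
  have d3 : ∀ i i' j j' k k', i ≠ i' → Disjoint ({u i, w i j, z i j k} : Finset V)
      {u i', w i' j', z i' j' k'} := fun i i' j j' k k' hne => hdis i i' hne _ (e3 i j k) _ (e3 i' j' k')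
  have d2 : ∀ i j j' k k', j ≠ j' → Disjoint ({w i j, z i j k} : Finset V) {w i j', z i j' k'} :=
    fun i j j' k k' hne => hdis' i j j' hne _ (e2 i j k) _ (e2 i j' k')
  have d1 : ∀ i j k k', k ≠ k' → z i j k ≠ z i j k' := by
    intro i j k k' hne
    have := hdis'' i j k k' hne _ (e1 i j k) _ (e1 i j k')
    rwa [disjoint_singleton] at this
  have v3 : ∀ i j k, v ∉ ({u i, w i j, z i j k} : Finset V) := fun i j k => (hP i).2 _ (e3 i j k)
  have v2 : ∀ i j k, u i ∉ ({w i j, z i j k} : Finset V) := fun i j k => (hP' i j).2 _ (e2 i j k)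
  have v1 : ∀ i j k, w i j ∉ ({z i j k} : Finset V) := fun i j k => (hP'' i j k).2 _ (e1 i j k)
  refine ⟨⟨v, u, w, z, ?_, ?_, ?_, ?_, ?_, ?_, ?_, ?_, ?_, ?_⟩⟩
  · intro i i' hii
    by_contra hne
    have := d3 i i' j0 j0 k0 k0 hne
    rw [disjoint_left] at this
    exact this (a := u i) (by simp) (by simp [hii])
  · intro i j i' j' hii
    by_cases hne : i = i'
    · subst hne
      refine ⟨rfl, ?_⟩
      by_contra hne
      have := d2 i j j' k0 k0 hne
      rw [disjoint_left] at this
      exact this (a := w i j) (by simp) (by simp [hii])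
    · have := d3 i i' j j' k0 k0 hne
      rw [disjoint_left] at this
      exact absurd (by simp [hii]) (this (a := w i j) (by simp))
  · intro i j k i' j' k' hii
    by_cases hne : i = i'
    · subst hne
      refine ⟨rfl, ?_⟩
      by_cases hne : j = j'
      · subst hne
        refine ⟨rfl, ?_⟩
        by_contra hne
        exact d1 i j k k' hne hii
      · have := d2 i j j' k k' hne
        rw [disjoint_left] at this
        exact absurd (by simp [hii]) (this (a := z i j k) (by simp))
    · have := d3 i i' j j' k k' hne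
      rw [disjoint_left] at this
      exact absurd (by simp [hii]) (this (a := z i j k) (by simp))
  · intro i hi
    exact v3 i j0 k0 (by simp [hi])
  · intro i j hi
    exact v3 i j k0 (by simp [hi])
  · intro i j k hi
    exact v3 i j k (by simp [hi])
  · intro i i' j hi
    by_cases hne : i = i'
    · subst hne
      exact v2 i j k0 (by simp [hi])
    · have := d3 i i' j0 j k0 k0 hne
      rw [disjoint_left] at this
      exact this (a := u i) (by simp) (by simp [hi])
  · intro i i' j k hi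
    by_cases hne : i = i'
    · subst hne
      exact v2 i j k (by simp [hi])
    · have := d3 i i' j0 j k0 k hne
      rw [disjoint_left] at this
      exact this (a := u i) (by simp) (by simp [hi])
  · intro i j i' j' k hi
    by_cases hne : i = i'
    · subst hne
      by_cases hne : j = j'
      · subst hne
        exact v1 i j k (by simp [hi])
      · have := d2 i j j' k0 k hne
        rw [disjoint_left] at this
        exact this (a := w i j) (by simp) (by simp [hi])
    · have := d3 i i' j j' k0 k hne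
      rw [disjoint_left] at this
      exact this (a := w i j) (by simp) (by simp [hi])
  · intro i j k
    exact mem_biUnion.2 ⟨i, mem_univ _, mem_image.2 ⟨_, e3 i j k, rfl⟩⟩

/-- The number of vertices of a generalised star. -/
theorem Tree.card_le {V : Type*} [DecidableEq V] {E : Finset (Finset V)} {a b c : ℕ}
    (T : Tree E a b c) (hb : 1 ≤ b) (hc : 1 ≤ c) (S : Finset V) (hS : ∀ e ∈ E, T.v ∈ e → e ⊆ S)
    (ha : 1 ≤ a) : 1 + a + a * b + a * b * c ≤ S.card := by
  have i0 : Fin a := ⟨0, ha⟩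
  have j0 : Fin b := ⟨0, hb⟩
  have k0 : Fin c := ⟨0, hc⟩
  let f : Unit ⊕ Fin a ⊕ (Fin a × Fin b) ⊕ (Fin a × Fin b × Fin c) → V :=
    Sum.elim (fun _ => T.v) (Sum.elim T.u (Sum.elim (fun p => T.w p.1 p.2) fun p => T.z p.1 p.2.1 p.2.2))
  have hf : Function.Injective f := by
    rintro (⟨⟩ | i | ⟨i, j⟩ | ⟨i, j, k⟩) (⟨⟩ | i' | ⟨i', j'⟩ | ⟨i', j', k'⟩) h
    · rfl
    · exact absurd h (T.h1 _)
    · exact absurd h (T.h2 _ _)
    · exact absurd h (T.h3 _ _ _)
    · exact absurd h.symm (T.h1 _)
    · exact congrArg _ (congrArg _ (T.hu h))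
    · exact absurd h (T.h4 _ _ _)
    · exact absurd h (T.h5 _ _ _ _)
    · exact absurd h.symm (T.h2 _ _)
    · exact absurd h.symm (T.h4 _ _ _)
    · obtain ⟨rfl, rfl⟩ := T.hw _ _ _ _ h
      rfl
    · exact absurd h (T.h6 _ _ _ _ _)
    · exact absurd h.symm (T.h3 _ _ _)
    · exact absurd h.symm (T.h5 _ _ _ _)
    · exact absurd h.symm (T.h6 _ _ _ _ _)
    · obtain ⟨rfl, rfl, rfl⟩ := T.hz _ _ _ _ _ _ h
      rfl
  have hS' : ∀ x, f x ∈ S := by
    have key : ∀ i j k, ({T.v, T.u i, T.w i j, T.z i j k} : Finset V) ⊆ S := fun i j k =>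
      hS _ (T.hE i j k) (by simp)
    rintro (⟨⟩ | i | ⟨i, j⟩ | ⟨i, j, k⟩)
    · exact key i0 j0 k0 (by simp [f])
    · exact key i j0 k0 (by simp [f])
    · exact key i j k0 (by simp [f])
    · exact key i j k (by simp [f])
  have := card_le_card_of_injOn f (s := univ) (t := S) (fun x _ => hS' x) (fun x _ y _ h => hf h)
  simp only [Finset.card_univ, Fintype.card_sum, Fintype.card_prod, Fintype.card_fin,
    Fintype.card_unit] at this
  rw [← mul_assoc] at this
  omega

theorem le_ex {n : ℕ} {ds : List ℕ} (F : Finset (Finset (Fin n))) (h1 : ∀ e ∈ F, e.card = ds.length + 1)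
    (h2 : ∀ E ⊆ F, ¬ IsStar ds E) : F.card ≤ ex n ds := by
  classical
  unfold ex
  exact Finset.le_sup (f := Finset.card) (mem_filter.2 ⟨mem_univ _, h1, h2⟩)

theorem ex_le {n : ℕ} {ds : List ℕ} {m : ℕ} (h : ∀ F : Finset (Finset (Fin n)),
    (∀ e ∈ F, e.card = ds.length + 1) → (∀ E ⊆ F, ¬ IsStar ds E) → F.card ≤ m) : ex n ds ≤ m := by
  classical
  unfold ex
  exact Finset.sup_le fun F hF => h F (mem_filter.1 hF).2.1 (mem_filter.1 hF).2.2

/-- A family on a set with at most `n` elements. -/
theorem le_ex_of_type {n a b c : ℕ} (hb : 1 ≤ b) (hc : 1 ≤ c) (ha : 1 ≤ a) {W : Type*} [Fintype W]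
    [DecidableEq W] (hW : Fintype.card W ≤ n) (F : Finset (Finset W)) (h1 : ∀ e ∈ F, e.card = 4)
    (h2 : Tree F a b c → False) : F.card ≤ ex n [a, b, c] := by
  classical
  obtain ⟨f⟩ : Nonempty (W ↪ Fin n) := by
    rw [Function.Embedding.nonempty_iff_card_le]
    simpa using hW
  have hcard : (F.image fun e => e.map f).card = F.card :=
    card_image_of_injective _ (Finset.map_injective f)
  rw [← hcard]
  refine le_ex _ ?_ ?_
  · intro e he
    obtain ⟨e', he', rfl⟩ := mem_image.1 he
    rw [card_map, h1 e' he']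
    rfl
  · intro E hE hs
    obtain ⟨T⟩ := tree_of_isStar hb hc hs
    have i0 : Fin a := ⟨0, ha⟩
    have j0 : Fin b := ⟨0, hb⟩
    have k0 : Fin c := ⟨0, hc⟩
    have key : ∀ i j k, ∃ e' ∈ F, e'.map f = {T.v, T.u i, T.w i j, T.z i j k} := by
      intro i j k
      obtain ⟨e', he', h⟩ := mem_image.1 (hE (T.hE i j k))
      exact ⟨e', he', h⟩
    have mem : ∀ i j k y, y ∈ ({T.v, T.u i, T.w i j, T.z i j k} : Finset (Fin n)) → ∃ x, f x = y := by
      intro i j k y hy
      obtain ⟨e', he', h⟩ := key i j k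
      rw [← h] at hy
      obtain ⟨x, -, hx⟩ := mem_map.1 hy
      exact ⟨x, hx⟩
    obtain ⟨v, hv⟩ := mem i0 j0 k0 T.v (by simp)
    choose u hu using fun i => mem i j0 k0 (T.u i) (by simp)
    choose w hw using fun i j => mem i j k0 (T.w i j) (by simp)
    choose z hz using fun i j k => mem i j k (T.z i j k) (by simp)
    refine h2 ⟨v, u, w, z, ?_, ?_, ?_, ?_, ?_, ?_, ?_, ?_, ?_, ?_⟩
    · intro i i' h
      apply T.hu
      rw [← hu, ← hu, h]
    · intro i j i' j' h
      apply T.hw
      rw [← hw, ← hw, h]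
    · intro i j k i' j' k' h
      apply T.hz
      rw [← hz, ← hz, h]
    · intro i h
      apply T.h1 i
      rw [← hv, ← hu, h]
    · intro i j h
      apply T.h2 i j
      rw [← hv, ← hw, h]
    · intro i j k h
      apply T.h3 i j k
      rw [← hv, ← hz, h]
    · intro i i' j h
      apply T.h4 i i' j
      rw [← hu, ← hw, h]
    · intro i i' j k h
      apply T.h5 i i' j k
      rw [← hu, ← hz, h]
    · intro i j i' j' k h
      apply T.h6 i j i' j' k
      rw [← hw, ← hz, h]
    · intro i j k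
      obtain ⟨e', he', h⟩ := key i j k
      have : e' = {v, u i, w i j, z i j k} := by
        apply Finset.map_injective f
        rw [h]
        simp [hv, hu, hw, hz]
      rw [← this]
      exact he'

end Pool.Agent.H21.Star
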