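import Pool.Agent.H21.Star.Count

/-!
# The upper bound
-/

set_option autoImplicit false
set_option linter.unusedSectionVars false

namespace Pool.Agent.H21.Star

open Finset

theorem dist_perm (π : Equiv.Perm (Fin 4)) : Dist (π 0) (π 1) (π 2) (π 3) := by
  have ne : ∀ s t : Fin 4, s ≠ t → π s ≠ π t := fun s t hst h => hst (π.injective h)
  exact ⟨ne _ _ (by decide), ne _ _ (by decide), ne _ _ (by decide), ne _ _ (by decide),
    ne _ _ (by decide), ne _ _ (by decide)⟩

theorem exists_perm {p q r s : Fin 4} (hd : Dist p q r s) :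
    ∃ π : Equiv.Perm (Fin 4), π 0 = p ∧ π 1 = q ∧ π 2 = r ∧ π 3 = s := by
  have hinj : Function.Injective (![p, q, r, s] : Fin 4 → Fin 4) := by
    obtain ⟨h1, h2, h3, h4, h5, h6⟩ := hd
    intro i j hij
    fin_cases i <;> fin_cases j <;> simp_all
  exact ⟨Equiv.ofBijective _ (Finite.injective_iff_bijective.1 hinj), rfl, rfl, rfl, rfl⟩

theorem card_perm4 : (univ : Finset (Equiv.Perm (Fin 4))).card = 24 := by
  rw [Finset.card_univ, Fintype.card_perm, Fintype.card_fin]
  rfl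

variable {V : Type*} [Fintype V] [DecidableEq V]

theorem card_bi (f : Equiv.Perm (Fin 4) → Finset V) {k : ℕ} (h : ∀ π, (f π).card ≤ k) :
    ((univ : Finset (Equiv.Perm (Fin 4))).biUnion f).card ≤ 24 * k := by
  rw [← card_perm4]
  exact card_biUnion_le_card_mul _ _ _ fun π _ => h π

theorem card_un {A B : Finset V} {k l m : ℕ} (hA : A.card ≤ k) (hB : B.card ≤ l) (hm : k + l ≤ m) :
    (A ∪ B).card ≤ m := (card_union_le A B).trans ((add_le_add hA hB).trans hm)

theorem upper_tuples {a b c : ℕ} (ha : 1 ≤ a) (hb : 1 ≤ b) (hc : 1 ≤ c) (X : Finset (Fin 4 → V))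
    (h : ∀ π v, ¬ Star3 (R X π v) a b c) :
    X.card ≤ 24 * (Fintype.card V * (Fintype.card V * (Fintype.card V * (c - 1))) +
      Fintype.card V * (Fintype.card V * (96 * (b * c) * (288 * (b * c)))) +
      Fintype.card V * (72 * (a * b * c) * (240 * (a * b * c) * (504 * (a * b * c)))) +
      Fintype.card V * (Fintype.card V * (48 * (a * b) * (24 * a))) +
      Fintype.card V * (24 * a * (Fintype.card V * (24 * a))) +
      Fintype.card V * (Fintype.card V * (72 * (a * b * c) * (24 * min a b)))) := by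
  classical
  choose C1 C2 C3 D2 D3 E3 h1 h2 h3 h4 h5 h6 h7 using fun π v => pack3 (R X π v) hb hc (h π v)
  have hab : a ≤ a * b := Nat.le_mul_of_pos_right _ hb
  have habc : a * b ≤ a * b * c := Nat.le_mul_of_pos_right _ hc
  have hbc : b ≤ b * c := Nat.le_mul_of_pos_right _ hc
  have hbc' : b * c ≤ a * b * c := by rw [mul_assoc]; exact Nat.le_mul_of_pos_left _ ha
  set U1 : V → Finset V := fun v => univ.biUnion fun π => C1 π v with hU1
  set U2 : V → Finset V := fun v => U1 v ∪ univ.biUnion fun π => C2 π v with hU2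
  set U3 : V → Finset V := fun v => U2 v ∪ univ.biUnion fun π => C3 π v with hU3
  set W2 : V → V → Finset V := fun v u => univ.biUnion fun π => D2 π v u with hW2
  set W3 : V → V → Finset V := fun v u => univ.biUnion fun π =>
    (D2 π v u ∪ D2 π u v) ∪ (D3 π v u ∪ D3 π u v) with hW3
  have cU1 : ∀ v, (U1 v).card ≤ 24 * a := fun v => card_bi _ fun π => (h1 π v).le
  have cU2 : ∀ v, (U2 v).card ≤ 48 * (a * b) := fun v =>
    card_un (cU1 v) (card_bi _ fun π => (h2 π v).le) (by omega)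
  have cU3 : ∀ v, (U3 v).card ≤ 72 * (a * b * c) := fun v =>
    card_un (cU2 v) (card_bi _ fun π => (h3 π v).le) (by omega)
  have cW2 : ∀ v u, (W2 v u).card ≤ 24 * b := fun v u => card_bi _ fun π => (h4 π v u).le
  have cW3 : ∀ v u, (W3 v u).card ≤ 96 * (b * c) := by
    intro v u
    refine (card_bi _ (k := 4 * (b * c)) fun π => ?_).trans (by omega)
    exact card_un (card_un (h4 π v u).le (h4 π u v).le (le_refl (b + b)))
      (card_un (h5 π v u).le (h5 π u v).le (le_refl (b * c + b * c))) (by omega)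
  -- the six kinds of tuples
  set X1 : Equiv.Perm (Fin 4) → Finset (Fin 4 → V) := fun π =>
    X.filter fun x => x (π 3) ∈ E3 π (x (π 0)) (x (π 1)) (x (π 2)) with hX1
  set X2 : Equiv.Perm (Fin 4) → Finset (Fin 4 → V) := fun π =>
    X.filter fun x => x (π 2) ∈ W3 (x (π 0)) (x (π 1)) ∧ x (π 3) ∈ (W3 (x (π 0)) (x (π 1)) ∪
      (W3 (x (π 0)) (x (π 2)) ∪ W3 (x (π 1)) (x (π 2)))) with hX2
  set X3 : Equiv.Perm (Fin 4) → Finset (Fin 4 → V) := fun π =>
    X.filter fun x => x (π 1) ∈ U3 (x (π 0)) ∧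
      x (π 2) ∈ (U3 (x (π 0)) ∪ (U3 (x (π 1)) ∪ W3 (x (π 0)) (x (π 1)))) ∧
      x (π 3) ∈ (U3 (x (π 0)) ∪ (U3 (x (π 1)) ∪ (U3 (x (π 2)) ∪ (W3 (x (π 0)) (x (π 1)) ∪
        (W3 (x (π 0)) (x (π 2)) ∪ W3 (x (π 1)) (x (π 2))))))) with hX3
  set X4 : Equiv.Perm (Fin 4) → Finset (Fin 4 → V) := fun π =>
    X.filter fun x => x (π 2) ∈ U2 (x (π 0)) ∧ x (π 3) ∈ U1 (x (π 2)) with hX4
  set X5 : Equiv.Perm (Fin 4) → Finset (Fin 4 → V) := fun π =>
    X.filter fun x => x (π 1) ∈ U1 (x (π 0)) ∧ x (π 3) ∈ U1 (x (π 2)) with hX5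
  set X6 : Equiv.Perm (Fin 4) → Finset (Fin 4 → V) := fun π =>
    X.filter fun x => x (π 2) ∈ U3 (x (π 0)) ∧ x (π 3) ∈ U1 (x (π 2)) ∩ W2 (x (π 0)) (x (π 2)) with hX6
  have c1 : ∀ π, (X1 π).card ≤ Fintype.card V * (Fintype.card V * (Fintype.card V * (c - 1))) := by
    intro π
    refine count (X1 π) (dist_perm π) (fun _ => univ) (fun _ _ => univ) (fun v u w => E3 π v u w)
      (fun _ => le_of_eq Finset.card_univ) (fun _ _ => le_of_eq Finset.card_univ)
      (fun v u w => Nat.le_sub_one_of_lt (h6 π v u w)) ?_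
    intro x hx
    exact ⟨mem_univ _, mem_univ _, (mem_filter.1 hx).2⟩
  have c2 : ∀ π, (X2 π).card ≤
      Fintype.card V * (Fintype.card V * (96 * (b * c) * (288 * (b * c)))) := by
    intro π
    refine count (X2 π) (dist_perm π) (fun _ => univ) (fun v u => W3 v u)
      (fun v u w => W3 v u ∪ (W3 v w ∪ W3 u w))
      (fun _ => le_of_eq Finset.card_univ) cW3
      (fun v u w => card_un (cW3 _ _) (card_un (cW3 _ _) (cW3 _ _) le_rfl) (by omega)) ?_
    intro x hx
    exact ⟨mem_univ _, (mem_filter.1 hx).2.1, (mem_filter.1 hx).2.2⟩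
  have c3 : ∀ π, (X3 π).card ≤
      Fintype.card V * (72 * (a * b * c) * (240 * (a * b * c) * (504 * (a * b * c)))) := by
    intro π
    refine count (X3 π) (dist_perm π) (fun v => U3 v) (fun v u => U3 v ∪ (U3 u ∪ W3 v u))
      (fun v u w => U3 v ∪ (U3 u ∪ (U3 w ∪ (W3 v u ∪ (W3 v w ∪ W3 u w))))) cU3
      (fun v u => card_un (cU3 _) (card_un (cU3 _) (cW3 _ _) le_rfl) (by omega))
      (fun v u w => card_un (cU3 _) (card_un (cU3 _) (card_un (cU3 _) (card_un (cW3 _ _)
        (card_un (cW3 _ _) (cW3 _ _) le_rfl) le_rfl) le_rfl) le_rfl) (by omega)) ?_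
    intro x hx
    exact (mem_filter.1 hx).2
  have c4 : ∀ π, (X4 π).card ≤
      Fintype.card V * (Fintype.card V * (48 * (a * b) * (24 * a))) := by
    intro π
    refine count (X4 π) (dist_perm π) (fun _ => univ) (fun v u => U2 v)
      (fun v u w => U1 w) (fun _ => le_of_eq Finset.card_univ) (fun v _ => cU2 v)
      (fun v u w => cU1 w) ?_
    intro x hx
    exact ⟨mem_univ _, (mem_filter.1 hx).2.1, (mem_filter.1 hx).2.2⟩
  have c5 : ∀ π, (X5 π).card ≤
      Fintype.card V * (24 * a * (Fintype.card V * (24 * a))) := by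
    intro π
    refine count (X5 π) (dist_perm π) (fun v => U1 v) (fun v u => univ)
      (fun v u w => U1 w) cU1 (fun _ _ => le_of_eq Finset.card_univ)
      (fun v u w => cU1 w) ?_
    intro x hx
    exact ⟨(mem_filter.1 hx).2.1, mem_univ _, (mem_filter.1 hx).2.2⟩
  have c6 : ∀ π, (X6 π).card ≤
      Fintype.card V * (Fintype.card V * (72 * (a * b * c) * (24 * min a b))) := by
    intro π
    refine count (X6 π) (dist_perm π) (fun _ => univ) (fun v u => U3 v)
      (fun v u w => U1 w ∩ W2 v w) (fun _ => le_of_eq Finset.card_univ) (fun v _ => cU3 v)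
      (fun v u w => ?_) ?_
    · rcases le_total a b with hle | hle
      · rw [min_eq_left hle]
        exact (card_le_card inter_subset_left).trans (cU1 w)
      · rw [min_eq_right hle]
        exact (card_le_card inter_subset_right).trans (cW2 v w)
    · intro x hx
      exact ⟨mem_univ _, (mem_filter.1 hx).2.1, (mem_filter.1 hx).2.2⟩
  have hcov : X ⊆ (univ : Finset (Equiv.Perm (Fin 4))).biUnion fun π =>
      X1 π ∪ (X2 π ∪ (X3 π ∪ (X4 π ∪ (X5 π ∪ X6 π)))) := by
    intro x hx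
    simp only [mem_biUnion, mem_univ, true_and, mem_union]
    by_cases hI : ∃ π, x (π 3) ∈ E3 π (x (π 0)) (x (π 1)) (x (π 2))
    · obtain ⟨π, hπ⟩ := hI
      exact ⟨π, Or.inl (mem_filter.2 ⟨hx, hπ⟩)⟩
    have H : Arrows (fun p q => x q ∈ U1 (x p)) (fun p q => x q ∈ U2 (x p))
        (fun p q => x q ∈ U3 (x p)) (fun p q r => x r ∈ W2 (x p) (x q))
        (fun p q r => x r ∈ W3 (x p) (x q)) := by
      refine ⟨fun p q hpq => mem_union_left _ hpq, fun p q hpq => mem_union_left _ hpq, ?_, ?_, ?_⟩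
      · intro p q r hpq
        obtain ⟨π, hπ, hm⟩ := mem_biUnion.1 hpq
        exact mem_biUnion.2 ⟨π, hπ, mem_union_left _ (mem_union_left _ hm)⟩
      · intro p q r hpq
        obtain ⟨π, hπ, hm⟩ := mem_biUnion.1 hpq
        refine mem_biUnion.2 ⟨π, hπ, ?_⟩
        simp only [mem_union] at hm ⊢
        tauto
      · intro v u w z hd
        obtain ⟨π, p0, p1, p2, p3⟩ := exists_perm hd
        have hR : R X π (x v) (x u) (x w) (x z) := ⟨x, hx, by rw [p0], by rw [p1], by rw [p2], by rw [p3]⟩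
        rcases h7 π (x v) (x u) (x w) (x z) hR with g | g | g | g | g | g
        · exact Or.inl (mem_biUnion.2 ⟨π, mem_univ _, g⟩)
        · exact Or.inr (Or.inl (mem_union_right _ (mem_biUnion.2 ⟨π, mem_univ _, g⟩)))
        · exact Or.inr (Or.inr (Or.inl (mem_union_right _ (mem_biUnion.2 ⟨π, mem_univ _, g⟩))))
        · exact Or.inr (Or.inr (Or.inr (Or.inl (mem_biUnion.2 ⟨π, mem_univ _, g⟩))))
        · exact Or.inr (Or.inr (Or.inr (Or.inr (mem_biUnion.2 ⟨π, mem_univ _,
            mem_union_right _ (mem_union_left _ g)⟩))))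
        · exact absurd ⟨π, by rw [p0, p1, p2, p3]; exact g⟩ hI
    rcases comb H with hh | hh | hh | hh | hh
    · obtain ⟨u, v, w, z, hd, g1, g2⟩ := hh
      obtain ⟨π, rfl, rfl, rfl, rfl⟩ := exists_perm hd
      refine ⟨π, Or.inr (Or.inl (mem_filter.2 ⟨hx, g1, ?_⟩))⟩
      simp only [mem_union]
      tauto
    · obtain ⟨v, u, w, z, hd, g1, g2, g3⟩ := hh
      obtain ⟨π, rfl, rfl, rfl, rfl⟩ := exists_perm hd
      refine ⟨π, Or.inr (Or.inr (Or.inl (mem_filter.2 ⟨hx, g1, ?_, ?_⟩)))⟩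
      · simp only [mem_union]
        tauto
      · simp only [mem_union]
        tauto
    · obtain ⟨p, q, r, s, hd, g1, g2⟩ := hh
      obtain ⟨π, rfl, rfl, rfl, rfl⟩ := exists_perm hd
      exact ⟨π, Or.inr (Or.inr (Or.inr (Or.inl (mem_filter.2 ⟨hx, g1, g2⟩))))⟩
    · obtain ⟨p, q, r, s, hd, g1, g2⟩ := hh
      obtain ⟨π, rfl, rfl, rfl, rfl⟩ := exists_perm hd
      exact ⟨π, Or.inr (Or.inr (Or.inr (Or.inr (Or.inl (mem_filter.2 ⟨hx, g1, g2⟩)))))⟩
    · obtain ⟨p, q, r, s, hd, g1, g2, g3⟩ := hh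
      obtain ⟨π, rfl, rfl, rfl, rfl⟩ := exists_perm hd
      exact ⟨π, Or.inr (Or.inr (Or.inr (Or.inr (Or.inr (mem_filter.2
        ⟨hx, g1, mem_inter.2 ⟨g2, g3⟩⟩)))))⟩
  refine (card_le_card hcov).trans ?_
  refine (card_biUnion_le_card_mul _ _ _ fun π _ => ?_).trans_eq (congrArg (· * _) card_perm4)
  refine (card_union_le _ _).trans ?_
  refine (Nat.add_le_add_left (card_union_le _ _) _).trans ?_
  refine (Nat.add_le_add_left (Nat.add_le_add_left (card_union_le _ _) _) _).trans ?_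
  refine (Nat.add_le_add_left (Nat.add_le_add_left (Nat.add_le_add_left (card_union_le _ _) _) _) _).trans ?_
  refine (Nat.add_le_add_left (Nat.add_le_add_left (Nat.add_le_add_left
    (Nat.add_le_add_left (card_union_le _ _) _) _) _) _).trans ?_
  have := c1 π
  have := c2 π
  have := c3 π
  have := c4 π
  have := c5 π
  have := c6 π
  omega

end Pool.Agent.H21.Star
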